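import Pool.Agent.GF.Targets

set_option autoImplicit false

/-!
# Siegel's lemma for the simultaneous approximation (job SIEG)
-/

namespace Pool.Agent.GF

open Finset
open scoped BigOperators

namespace SIEG_

attribute [local instance] Matrix.seminormedAddCommGroup

theorem siegel {α β : Type} [Fintype α] [Fintype β] (A : Matrix α β ℤ) (X E : ℕ)
    (hX : 1 ≤ X) (hA : ∀ i j, |A i j| ≤ (X : ℤ))
    (h1 : Fintype.card α < Fintype.card β) (h2 : 0 < Fintype.card α)
    (h3 : Fintype.card α ≤ E * (Fintype.card β - Fintype.card α)) :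
    ∃ t : β → ℤ, t ≠ 0 ∧ A.mulVec t = 0 ∧ ∀ j, |t j| ≤ ((Fintype.card β * X : ℕ) : ℤ) ^ E := by
  obtain ⟨t, ht0, ht1, ht2⟩ := Int.Matrix.exists_ne_zero_int_vec_norm_le A h1 h2
  refine ⟨t, ht0, ht1, fun j => ?_⟩
  have hXr : (1 : ℝ) ≤ X := by exact_mod_cast hX
  have hn : (1 : ℝ) ≤ (Fintype.card β : ℝ) := by exact_mod_cast (by omega : 1 ≤ Fintype.card β)
  have hnorm : ‖A‖ ≤ (X : ℝ) := by
    rw [Matrix.norm_le_iff (by positivity)]
    intro i j
    rw [Int.norm_eq_abs]
    exact_mod_cast hA i j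
  have hmax : max 1 ‖A‖ ≤ (X : ℝ) := max_le hXr hnorm
  have hbase : (Fintype.card β : ℝ) * max 1 ‖A‖ ≤ (Fintype.card β : ℝ) * X :=
    mul_le_mul_of_nonneg_left hmax (by positivity)
  have hbase1 : (1 : ℝ) ≤ (Fintype.card β : ℝ) * X := by nlinarith
  have hdpos : (0 : ℝ) < (Fintype.card β : ℝ) - Fintype.card α := by
    rw [sub_pos]; exact_mod_cast h1
  have hexp : ((Fintype.card α : ℝ) / ((Fintype.card β : ℝ) - Fintype.card α)) ≤ (E : ℝ) := by
    rw [div_le_iff₀ hdpos]
    have h4 : ((Fintype.card β - Fintype.card α : ℕ) : ℝ) =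
        (Fintype.card β : ℝ) - Fintype.card α := by
      rw [Nat.cast_sub h1.le]
    rw [← h4]
    exact_mod_cast h3
  have hexp0 : 0 ≤ ((Fintype.card α : ℝ) / ((Fintype.card β : ℝ) - Fintype.card α)) := by
    positivity
  have h5 : ‖t‖ ≤ ((Fintype.card β : ℝ) * X) ^ E := by
    refine ht2.trans ?_
    calc _ ≤ ((Fintype.card β : ℝ) * X) ^
          ((Fintype.card α : ℝ) / ((Fintype.card β : ℝ) - Fintype.card α)) :=
          Real.rpow_le_rpow (by positivity) hbase hexp0
      _ ≤ ((Fintype.card β : ℝ) * X) ^ (E : ℝ) :=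
          Real.rpow_le_rpow_of_exponent_le hbase1 hexp
      _ = _ := Real.rpow_natCast _ _
  have h6 := (norm_le_pi_norm t j).trans h5
  rw [Int.norm_eq_abs] at h6
  exact_mod_cast h6

/-- the polynomial with coefficients `t` -/
noncomputable def QQ {m : ℕ} (t : Fin (m + 1) → ℤ) : Polynomial ℚ :=
  ∑ i : Fin (m + 1), Polynomial.C (t i : ℚ) * Polynomial.X ^ (i : ℕ)

theorem coeff_QQ {m : ℕ} (t : Fin (m + 1) → ℤ) (s : ℕ) :
    (QQ t).coeff s = if h : s < m + 1 then (t ⟨s, h⟩ : ℚ) else 0 := by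
  unfold QQ
  rw [Polynomial.finsetSum_coeff]
  simp only [Polynomial.coeff_C_mul, Polynomial.coeff_X_pow]
  split_ifs with h
  · rw [Finset.sum_eq_single ⟨s, h⟩]
    · simp
    · intro b _ hb
      rw [if_neg, mul_zero]
      intro h2
      exact hb (Fin.ext h2.symm)
    · intro h2
      exact absurd (Finset.mem_univ _) h2
  · refine Finset.sum_eq_zero fun i _ => ?_
    rw [if_neg, mul_zero]
    intro h2
    exact h (by rw [h2]; exact i.isLt)

theorem natDegree_QQ {m : ℕ} (t : Fin (m + 1) → ℤ) : (QQ t).natDegree < m + 1 := by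
  rw [Nat.lt_succ_iff, Polynomial.natDegree_le_iff_coeff_eq_zero]
  intro s hs
  rw [coeff_QQ, dif_neg (by omega)]

/-- coefficient of the product with a power series -/
theorem coeff_QQ_mul {m : ℕ} (t : Fin (m + 1) → ℤ) (f : PowerSeries ℚ) (s : ℕ) :
    PowerSeries.coeff s ((QQ t : PowerSeries ℚ) * f) =
      ∑ i : Fin (m + 1), (t i : ℚ) * (if (i : ℕ) ≤ s then PowerSeries.coeff (s - i) f else 0) := by
  unfold QQ
  have e1 : ((∑ i : Fin (m + 1), Polynomial.C (t i : ℚ) * Polynomial.X ^ (i : ℕ) :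
      Polynomial ℚ) : PowerSeries ℚ) =
      ∑ i : Fin (m + 1), PowerSeries.C (t i : ℚ) * PowerSeries.X ^ (i : ℕ) := by
    have h := map_sum (Polynomial.coeToPowerSeries.ringHom (R := ℚ))
      (fun i : Fin (m + 1) => Polynomial.C (t i : ℚ) * Polynomial.X ^ (i : ℕ)) Finset.univ
    simp only [Polynomial.coeToPowerSeries.ringHom_apply, Polynomial.coe_mul, Polynomial.coe_C,
      Polynomial.coe_pow, Polynomial.coe_X] at h
    exact h
  rw [e1, Finset.sum_mul, map_sum]
  refine Finset.sum_congr rfl fun i _ => ?_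
  rw [mul_assoc, PowerSeries.coeff_C_mul, PowerSeries.coeff_X_pow_mul']

end SIEG_

open SIEG_ in
theorem p_SIEG : T_SIEG := by
  intro ι _ _ f J0 C L n e hM hC hL hn hf0 hfb he hez
  obtain ⟨M, hMc⟩ : ∃ M, M = Fintype.card ι := ⟨_, rfl⟩
  rw [← hMc] at hM hL ⊢
  obtain ⟨σ, hσ⟩ : ∃ σ, σ = M * (L - 1) * n := ⟨_, rfl⟩
  rw [← hσ]
  obtain ⟨M', hM'⟩ : ∃ M', M = M' + 2 := ⟨M - 2, by omega⟩
  obtain ⟨L', hL'⟩ : ∃ L', L = L' + M + 1 := ⟨L - M - 1, by omega⟩
  obtain ⟨n', hn'⟩ : ∃ n', n = n' + 1 := ⟨n - 1, by omega⟩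
  have e1 : M - 1 = M' + 1 := by omega
  have e2 : L - 1 = L' + M := by omega
  have hprod : 1 ≤ (M - 1) * L * n := by
    rw [e1, hL', hn']
    exact Nat.one_le_iff_ne_zero.2 (by positivity)
  obtain ⟨m, hm⟩ : ∃ m, m + 1 = (M - 1) * L * n := ⟨(M - 1) * L * n - 1, by omega⟩
  have hm' : (M - 1) * L * n - 1 = m := by omega
  rw [hm']
  have hmσ : m + 1 + (L - M) * n = σ := by
    have e3 : L - M = L' + 1 := by omega
    rw [hm, hσ, e1, e2, e3, hL', hM']
    ring
  have hLM : 1 ≤ (L - M) * n := by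
    have e3 : L - M = L' + 1 := by omega
    rw [e3, hn']
    exact Nat.one_le_iff_ne_zero.2 (by positivity)
  have hmltσ : m < σ := by omega
  -- integers
  obtain ⟨z, hz⟩ : ∃ z : ι → ℕ → ℤ, ∀ J s, s ≤ σ →
      (e σ : ℚ) * PowerSeries.coeff s (f J) = z J s := by
    have : ∀ (J : ι) (s : ℕ), ∃ x : ℤ, s ≤ σ → (e σ : ℚ) * PowerSeries.coeff s (f J) = x := by
      intro J s
      by_cases hs : s ≤ σ
      · obtain ⟨x, hx⟩ := hez J σ s hs
        exact ⟨x, fun _ => hx⟩
      · exact ⟨0, fun h => absurd h hs⟩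
    choose z hz using this
    exact ⟨z, hz⟩
  have heσ : (e σ : ℚ) ≠ 0 := by
    have := (he σ).1
    exact_mod_cast this.ne'
  obtain ⟨X, hX⟩ : ∃ X : ℕ, X = C ^ (2 * σ + 2) := ⟨_, rfl⟩
  have hX1 : 1 ≤ X := by
    rw [hX]
    exact Nat.one_le_iff_ne_zero.2 (by positivity)
  have hC1 : (1 : ℚ) ≤ C := by exact_mod_cast hC
  have hzb : ∀ J s, s ≤ σ → |z J s| ≤ (X : ℤ) := by
    intro J s hs
    rw [hX]
    have e1 : (|z J s| : ℚ) = (e σ : ℚ) * |PowerSeries.coeff s (f J)| := by
      rw [← hz J s hs, abs_mul, abs_of_nonneg (by positivity)]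
    have e2 : (e σ : ℚ) ≤ (C : ℚ) ^ (σ + 1) := by exact_mod_cast (he σ).2
    have e3 : (|z J s| : ℚ) ≤ (C : ℚ) ^ (2 * σ + 2) := by
      rw [e1, show 2 * σ + 2 = (σ + 1) + (σ + 1) by ring, pow_add]
      exact mul_le_mul e2 ((hfb J s).trans (pow_le_pow_right₀ hC1 (by omega))) (abs_nonneg _)
        (by positivity)
    exact_mod_cast e3
  -- the linear system
  set Mat : Matrix ({J : ι // J ≠ J0} × Fin σ) (ι × Fin (m + 1)) ℤ :=
    fun p q => if (q.2 : ℕ) ≤ (p.2 : ℕ) then
      ((if q.1 = p.1 then z J0 (p.2 - q.2) else 0) - (if q.1 = J0 then z p.1 (p.2 - q.2) else 0))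
      else 0 with hMat
  have hcardα : Fintype.card ({J : ι // J ≠ J0} × Fin σ) = (M - 1) * σ := by
    rw [Fintype.card_prod, Fintype.card_fin, Fintype.card_subtype_compl, ← hMc,
      Fintype.card_unique]
  have hcardβ : Fintype.card (ι × Fin (m + 1)) = M * (m + 1) := by
    rw [Fintype.card_prod, Fintype.card_fin, ← hMc]
  have hdiff : M * (m + 1) = (M - 1) * σ + M * (M - 1) * n := by
    rw [hm, hσ, e1, e2, hL']
    ring
  have hMMn : 1 ≤ M * (M - 1) * n := by
    rw [e1, hM', hn']
    exact Nat.one_le_iff_ne_zero.2 (by positivity)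
  have hlt : Fintype.card ({J : ι // J ≠ J0} × Fin σ) < Fintype.card (ι × Fin (m + 1)) := by
    rw [hcardα, hcardβ, hdiff]
    omega
  have hpos : 0 < Fintype.card ({J : ι // J ≠ J0} × Fin σ) := by
    rw [hcardα, e1]
    have : 0 < σ := by omega
    positivity
  have hE : Fintype.card ({J : ι // J ≠ J0} × Fin σ) ≤
      L * (Fintype.card (ι × Fin (m + 1)) - Fintype.card ({J : ι // J ≠ J0} × Fin σ)) := by
    have e3 : Fintype.card (ι × Fin (m + 1)) - Fintype.card ({J : ι // J ≠ J0} × Fin σ) =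
        M * (M - 1) * n := by
      rw [hcardα, hcardβ, hdiff]
      omega
    rw [e3, hcardα, hσ]
    have e4 : L * (M * (M - 1) * n) = (M - 1) * (M * (L - 1) * n) + M * (M - 1) * n := by
      rw [e1, e2, hL']
      ring
    rw [e4]
    exact Nat.le_add_right _ _
  have hMb : ∀ p q, |Mat p q| ≤ (X : ℤ) := by
    intro p q
    have hp := p.2.isLt
    have h0 : (0 : ℤ) ≤ X := by positivity
    rw [hMat]
    simp only
    split_ifs with h1 h2 h3 h4
    · exact absurd (h2.symm.trans h3) p.1.2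
    · rw [sub_zero]
      exact hzb _ _ (by omega)
    · rw [zero_sub, abs_neg]
      exact hzb _ _ (by omega)
    · simp
    · simp
  obtain ⟨t, ht0, ht1, ht2⟩ := siegel Mat X L hX1 hMb hlt hpos hE
  obtain ⟨P, hP⟩ : ∃ P : ι → Polynomial ℚ, P = fun J => QQ fun i => t (J, i) := ⟨_, rfl⟩
  have hord : ∀ J, (PowerSeries.X : PowerSeries ℚ) ^ σ ∣
      (P J : PowerSeries ℚ) * f J0 - (P J0 : PowerSeries ℚ) * f J := by
    intro J
    by_cases hJ : J = J0
    · rw [hJ, sub_self]
      exact dvd_zero _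
    rw [PowerSeries.X_pow_dvd_iff]
    intro s hs
    have h4 : (e σ : ℚ) * PowerSeries.coeff s
        ((P J : PowerSeries ℚ) * f J0 - (P J0 : PowerSeries ℚ) * f J) = 0 := by
      have h5 := congrFun ht1 (⟨J, hJ⟩, ⟨s, hs⟩)
      rw [Matrix.mulVec, dotProduct] at h5
      have h6 : ((∑ q, Mat (⟨J, hJ⟩, ⟨s, hs⟩) q * t q : ℤ) : ℚ) = 0 := by
        rw [h5]; rfl
      rw [← h6, map_sub, hP]
      simp only
      rw [coeff_QQ_mul, coeff_QQ_mul, Fintype.sum_prod_type, Int.cast_sum]
      have h7 : ∀ I : ι, ((∑ i : Fin (m + 1), Mat (⟨J, hJ⟩, ⟨s, hs⟩) (I, i) * t (I, i) : ℤ) : ℚ) =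
          (if I = J then ∑ i : Fin (m + 1), (t (J, i) : ℚ) * (e σ *
            (if (i : ℕ) ≤ s then PowerSeries.coeff (s - i) (f J0) else 0)) else 0) -
          (if I = J0 then ∑ i : Fin (m + 1), (t (J0, i) : ℚ) * (e σ *
            (if (i : ℕ) ≤ s then PowerSeries.coeff (s - i) (f J) else 0)) else 0) := by
        intro I
        by_cases h8 : I = J
        · have h9 : ¬ I = J0 := fun h => hJ (h8.symm.trans h)
          rw [if_pos h8, if_neg h9, sub_zero, Int.cast_sum]
          refine Finset.sum_congr rfl fun i _ => ?_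
          have h10 : Mat (⟨J, hJ⟩, ⟨s, hs⟩) (I, i) = if (i : ℕ) ≤ s then z J0 (s - i) else 0 := by
            rw [hMat]
            simp only [h8, if_true, if_neg hJ, sub_zero]
          rw [h10, h8]
          split_ifs with h11
          · rw [hz J0 (s - i) (by omega)]
            push_cast
            ring
          · push_cast
            ring
        · by_cases h9 : I = J0
          · rw [if_neg h8, if_pos h9, zero_sub, Int.cast_sum, ← Finset.sum_neg_distrib]
            refine Finset.sum_congr rfl fun i _ => ?_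
            have h10 : Mat (⟨J, hJ⟩, ⟨s, hs⟩) (I, i) =
                if (i : ℕ) ≤ s then - z J (s - i) else 0 := by
              rw [hMat]
              simp only [if_neg h8, if_pos h9, zero_sub]
            rw [h10, h9]
            split_ifs with h11
            · rw [hz J (s - i) (by omega)]
              push_cast
              ring
            · push_cast
              ring
          · rw [if_neg h8, if_neg h9, sub_zero, Int.cast_sum]
            refine Finset.sum_eq_zero fun i _ => ?_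
            have h10 : Mat (⟨J, hJ⟩, ⟨s, hs⟩) (I, i) = 0 := by
              rw [hMat]
              simp only [if_neg h8, if_neg h9, sub_zero, ite_self]
            rw [h10, zero_mul, Int.cast_zero]
      rw [Finset.sum_congr rfl fun I _ => h7 I, Finset.sum_sub_distrib, Finset.sum_ite_eq',
        Finset.sum_ite_eq', if_pos (Finset.mem_univ _), if_pos (Finset.mem_univ _), mul_sub,
        Finset.mul_sum, Finset.mul_sum]
      congr 1
      · refine Finset.sum_congr rfl fun i _ => ?_
        ring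
      · refine Finset.sum_congr rfl fun i _ => ?_
        ring
    exact (mul_eq_zero.1 h4).resolve_left heσ
  refine ⟨P, ⟨?_, ?_, hord⟩, ?_⟩
  · intro h0
    apply ht0
    have hun : IsUnit (f J0) := by
      rw [PowerSeries.isUnit_iff_constantCoeff, hf0]
      exact isUnit_one
    have hall : ∀ J, P J = 0 := by
      intro J
      have h1 := hord J
      rw [h0, Polynomial.coe_zero, zero_mul, sub_zero, hun.dvd_mul_right,
        PowerSeries.X_pow_dvd_iff] at h1
      ext s
      by_cases hs : s < σ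
      · have h2 := h1 s hs
        rw [Polynomial.coeff_coe] at h2
        rw [h2, Polynomial.coeff_zero]
      · rw [hP]
        simp only
        rw [coeff_QQ, dif_neg (by omega), Polynomial.coeff_zero]
    funext q
    obtain ⟨J, i⟩ := q
    have h3 := coeff_QQ (fun i => t (J, i)) i
    have h4 : (QQ fun i => t (J, i)) = 0 := by
      have := hall J
      rw [hP] at this
      exact this
    rw [h4, Polynomial.coeff_zero, dif_pos i.isLt] at h3
    have h5 : (t (J, i) : ℚ) = 0 := h3.symm
    exact_mod_cast h5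
  · intro J
    rw [hP]
    exact Nat.lt_succ_iff.1 (natDegree_QQ _)
  · intro J s
    have hbound : (M * (m + 1) * X) ^ L ≤ (2 * C) ^ (4 * (M * L) ^ 2 * n) := by
      have hLpos : 1 ≤ L := by omega
      have b1 : M * (m + 1) ≤ 2 ^ (M * M * L * n) := by
        have : M * (m + 1) ≤ M * M * L * n := by
          rw [hm]
          have : M * ((M - 1) * L * n) ≤ M * (M * L * n) := by
            refine Nat.mul_le_mul_left _ (Nat.mul_le_mul_right _ (Nat.mul_le_mul_right _ ?_))
            omega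
          calc M * ((M - 1) * L * n) ≤ M * (M * L * n) := this
            _ = M * M * L * n := by ring
        exact this.trans (Nat.lt_two_pow_self).le
      have b2 : 2 * σ + 2 ≤ 2 * M * L * n := by
        have h1 : 2 * M * L * n = 2 * σ + 2 * M * n := by
          rw [hσ, e2, hL']
          ring
        have h2 : 1 ≤ M * n := by
          rw [hM', hn']
          exact Nat.one_le_iff_ne_zero.2 (by positivity)
        rw [h1]
        nlinarith
      have b3 : M * (m + 1) * X ≤ (2 * C) ^ (M * M * L * n + 2 * M * L * n) := by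
        rw [hX, pow_add (2 * C) (M * M * L * n) (2 * M * L * n)]
        refine Nat.mul_le_mul ?_ ?_
        · refine b1.trans (Nat.pow_le_pow_left ?_ _)
          omega
        · calc C ^ (2 * σ + 2) ≤ (2 * C) ^ (2 * σ + 2) := Nat.pow_le_pow_left (by omega) _
            _ ≤ (2 * C) ^ (2 * M * L * n) := Nat.pow_le_pow_right (by omega) b2
      calc (M * (m + 1) * X) ^ L ≤ ((2 * C) ^ (M * M * L * n + 2 * M * L * n)) ^ L :=
            Nat.pow_le_pow_left b3 _
        _ = (2 * C) ^ ((M * M * L * n + 2 * M * L * n) * L) := by rw [← pow_mul]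
        _ ≤ (2 * C) ^ (4 * (M * L) ^ 2 * n) := by
            refine Nat.pow_le_pow_right (by omega) ?_
            have h1 : 2 * M ≤ M * M := Nat.mul_le_mul_right _ hM
            have h2 : 2 * M * L * n ≤ M * M * L * n :=
              Nat.mul_le_mul_right _ (Nat.mul_le_mul_right _ h1)
            calc (M * M * L * n + 2 * M * L * n) * L
                ≤ (M * M * L * n + M * M * L * n) * L :=
                  Nat.mul_le_mul_right _ (Nat.add_le_add_left h2 _)
              _ = 2 * (M * L) ^ 2 * n := by ring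
              _ ≤ 4 * (M * L) ^ 2 * n := by
                  refine Nat.mul_le_mul_right _ (Nat.mul_le_mul_right _ (by omega))
    by_cases h3 : s < m + 1
    · refine ⟨t (J, ⟨s, h3⟩), ?_, ?_⟩
      · rw [hP]
        simp only
        rw [coeff_QQ, dif_pos h3]
      · have h4 := ht2 (J, ⟨s, h3⟩)
        rw [hcardβ] at h4
        refine h4.trans ?_
        exact_mod_cast hbound
    · refine ⟨0, ?_, ?_⟩
      · rw [hP]
        simp only
        rw [coeff_QQ, dif_neg h3, Int.cast_zero]
      · rw [abs_zero]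
        positivity

end Pool.Agent.GF
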