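import Mathlib

set_option autoImplicit false

/-!
# Values of G-functions at `1 / N`

A theorem of Galochkin type, uniform in the system: definitions and exact targets. The complete
proofs are in `Blueprint.lean.txt`.
-/

namespace Pool.Agent.GF

open Finset
open scoped BigOperators

/-- Taylor expansion of a polynomial at `z0`, as a power series -/
noncomputable def ty (z0 : ℚ) (p : Polynomial ℚ) : PowerSeries ℚ :=
  ((Polynomial.taylor z0 p : Polynomial ℚ) : PowerSeries ℚ)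

/-- a system `T f' = A f` with a power series solution `f` -/
structure Sys (ι : Type) : Type where
  T : Polynomial ℚ
  A : ι → ι → Polynomial ℚ
  f : ι → PowerSeries ℚ

/-- the equation `T f' = A f` -/
def Ode {ι : Type} [Fintype ι] (S : Sys ι) : Prop :=
  ∀ i, (S.T : PowerSeries ℚ) * PowerSeries.derivative ℚ (S.f i) =
    ∑ j, (S.A i j : PowerSeries ℚ) * S.f j

/-- linear independence over `ℚ(z)` -/
def Ind {ι : Type} [Fintype ι] (S : Sys ι) : Prop :=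
  ∀ F : ι → Polynomial ℚ, ∑ i, (F i : PowerSeries ℚ) * S.f i = 0 → F = 0

/-- `z = 0` is an ordinary point, or a regular singular point with nilpotent residue -/
def Nil {ι : Type} [Fintype ι] [DecidableEq ι] (S : Sys ι) : Prop :=
  S.T.eval 0 ≠ 0 ∨ (S.T.eval 0 = 0 ∧ (Polynomial.derivative S.T).eval 0 ≠ 0 ∧
    IsNilpotent (Matrix.of fun i j => (S.A i j).eval 0))

/-- `Γ` is the transport to `z0`: `T(z0+w) Γ' = - Γ A(z0+w)`, `Γ(0) = 1` -/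
structure Tr {ι : Type} [Fintype ι] [DecidableEq ι] (S : Sys ι) (z0 : ℚ)
    (Γ : ι → ι → PowerSeries ℚ) : Prop where
  init : ∀ i j, PowerSeries.constantCoeff (Γ i j) = if i = j then 1 else 0
  ode : ∀ i j, ty z0 S.T * PowerSeries.derivative ℚ (Γ i j) =
    - ∑ l, Γ i l * ty z0 (S.A l j)

/-- all the hypotheses on the system at the point `1 / N`; `J0` is an index with `f_J0(0) = 1` -/
structure GSys {ι : Type} [Fintype ι] [DecidableEq ι] (S : Sys ι) (J0 : ι) (N C d : ℕ) :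
    Prop where
  C_pos : 1 ≤ C
  d_pos : 1 ≤ d
  T_ne : S.T.eval (1 / (N : ℚ)) ≠ 0
  T_deg : S.T.natDegree ≤ d
  A_deg : ∀ i j, (S.A i j).natDegree ≤ d
  ode : Ode S
  ind : Ind S
  nil : Nil S
  one : PowerSeries.constantCoeff (S.f J0) = 1
  bd : ∀ i s, |PowerSeries.coeff s (S.f i)| ≤ (C : ℚ) ^ (s + 1)
  den : ∃ e : ℕ → ℕ, (∀ k, 0 < e k ∧ e k ≤ C ^ (k + 1)) ∧
    ∀ i k s, s ≤ k → ∃ x : ℤ, (e k : ℚ) * PowerSeries.coeff s (S.f i) = x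
  tr : ∃ (Γ : ι → ι → PowerSeries ℚ) (e : ℕ → ℕ) (τ : ℕ), Tr S (1 / (N : ℚ)) Γ ∧
    (∀ i j s, |PowerSeries.coeff s (Γ i j)| ≤ ((C : ℚ) * N) ^ (d * (s + 1))) ∧
    0 < τ ∧ τ ≤ (C * N) ^ d ∧ (∀ k, 0 < e k ∧ e k ≤ C ^ (k + 1)) ∧
    ∀ i j k s, s ≤ k → ∃ x : ℤ, (e k : ℚ) * (τ : ℚ) ^ s * PowerSeries.coeff s (Γ i j) = x

/-- the value of a power series at `1 / N` -/
noncomputable def val (N : ℕ) (g : PowerSeries ℚ) : ℝ :=
  ∑' s, ((PowerSeries.coeff s g : ℚ) : ℝ) * (1 / (N : ℝ)) ^ s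

/-! ## approximations and zero estimate -/

/-- simultaneous approximation: `P_J f_J0 - P_J0 f_J = O(z^σ)` -/
structure Pade {ι : Type} (f : ι → PowerSeries ℚ) (J0 : ι) (m σ : ℕ)
    (P : ι → Polynomial ℚ) : Prop where
  ne : P J0 ≠ 0
  deg : ∀ J, (P J).natDegree ≤ m
  ord : ∀ J, (PowerSeries.X : PowerSeries ℚ) ^ σ ∣
    (P J : PowerSeries ℚ) * f J0 - (P J0 : PowerSeries ℚ) * f J

/-- `D v = T v' - A v` -/
noncomputable def Dv {ι : Type} [Fintype ι] (S : Sys ι) (v : ι → Polynomial ℚ) :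
    ι → Polynomial ℚ :=
  fun i => S.T * Polynomial.derivative (v i) - ∑ j, S.A i j * v j

/-- the vectors `D^k P` -/
noncomputable def VV {ι : Type} [Fintype ι] (S : Sys ι) (P : ι → Polynomial ℚ) (k : ℕ) :
    ι → Polynomial ℚ := (Dv S)^[k] P

/-- a numbering of `ι` by `0, 1, ..., M-1` -/
noncomputable def num {ι : Type} [Fintype ι] (i : ι) : ℕ := (Fintype.equivFin ι i : ℕ)

/-- the determinant of the first `M` vectors -/
noncomputable def WW {ι : Type} [Fintype ι] [DecidableEq ι] (S : Sys ι) (P : ι → Polynomial ℚ) :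
    Polynomial ℚ :=
  Matrix.det (fun (K J : ι) => VV S P (num K) J)

/-- the transported approximations: `(Γ P(z0+w))_J` -/
noncomputable def gp {ι : Type} [Fintype ι] (z0 : ℚ) (Γ : ι → ι → PowerSeries ℚ)
    (P : ι → Polynomial ℚ) (J : ι) : PowerSeries ℚ :=
  ∑ l, Γ J l * ty z0 (P l)

/-- Z1: the determinant does not vanish -/
def T_NONZ : Prop := ∀ (ι : Type) [Fintype ι] [DecidableEq ι] (S : Sys ι) (J0 : ι) (m σ : ℕ)
  (P : ι → Polynomial ℚ), Ode S → Ind S → Nil S → PowerSeries.constantCoeff (S.f J0) = 1 →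
  m < σ → Pade S.f J0 m σ P → WW S P ≠ 0

/-- Z2: order at zero -/
def T_ORD0 : Prop := ∀ (ι : Type) [Fintype ι] [DecidableEq ι] (S : Sys ι) (J0 : ι) (m σ : ℕ)
  (P : ι → Polynomial ℚ), Ode S → PowerSeries.constantCoeff (S.f J0) = 1 → Pade S.f J0 m σ P →
  (Polynomial.X : Polynomial ℚ) ^ ((Fintype.card ι - 1) * (σ - (Fintype.card ι - 1))) ∣ WW S P

/-- Z3: order at `z0` -/
def T_ORD1 : Prop := ∀ (ι : Type) [Fintype ι] [DecidableEq ι] (S : Sys ι) (K0 : ℕ) (z0 : ℚ)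
  (Γ : ι → ι → PowerSeries ℚ) (P : ι → Polynomial ℚ) (c : ι → ℚ), Tr S z0 Γ → c ≠ 0 →
  (∀ k, k ≤ K0 → ∑ J, c J * PowerSeries.coeff k (gp z0 Γ P J) = 0) →
  (Polynomial.X - Polynomial.C z0) ^ (K0 + 1 - (Fintype.card ι - 1)) ∣ WW S P

/-- Z4: degree -/
def T_DEG : Prop := ∀ (ι : Type) [Fintype ι] [DecidableEq ι] (S : Sys ι) (m d : ℕ)
  (P : ι → Polynomial ℚ), S.T.natDegree ≤ d → (∀ i j, (S.A i j).natDegree ≤ d) →
  (∀ J, (P J).natDegree ≤ m) →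
  (WW S P).natDegree ≤ Fintype.card ι * m + d * (Fintype.card ι) ^ 2

/-- Z5: zero estimate (from Z1, Z2, Z3, Z4) -/
def T_ZE : Prop := ∀ (ι : Type) [Fintype ι] [DecidableEq ι] (S : Sys ι) (J0 : ι) (m σ d K0 : ℕ)
  (z0 : ℚ) (Γ : ι → ι → PowerSeries ℚ) (P : ι → Polynomial ℚ) (c : ι → ℚ), Ode S → Ind S →
  Nil S → PowerSeries.constantCoeff (S.f J0) = 1 → S.T.natDegree ≤ d →
  (∀ i j, (S.A i j).natDegree ≤ d) → m < σ → Pade S.f J0 m σ P → z0 ≠ 0 → Tr S z0 Γ → c ≠ 0 →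
  (∀ k, k ≤ K0 → ∑ J, c J * PowerSeries.coeff k (gp z0 Γ P J) = 0) →
  (Fintype.card ι - 1) * σ + K0 ≤ Fintype.card ι * m + (d + 1) * (Fintype.card ι) ^ 2

/-! ## construction and sizes -/

/-- S1: Siegel's lemma; `M = card ι`, `m + 1 = (M-1) L n`, `σ = M (L-1) n` -/
def T_SIEG : Prop := ∀ (ι : Type) [Fintype ι] [DecidableEq ι] (f : ι → PowerSeries ℚ) (J0 : ι)
  (C L n : ℕ) (e : ℕ → ℕ), 2 ≤ Fintype.card ι → 1 ≤ C → Fintype.card ι < L → 1 ≤ n →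
  PowerSeries.constantCoeff (f J0) = 1 →
  (∀ i s, |PowerSeries.coeff s (f i)| ≤ (C : ℚ) ^ (s + 1)) →
  (∀ k, 0 < e k ∧ e k ≤ C ^ (k + 1)) →
  (∀ i k s, s ≤ k → ∃ x : ℤ, (e k : ℚ) * PowerSeries.coeff s (f i) = x) →
  ∃ P : ι → Polynomial ℚ,
    Pade f J0 ((Fintype.card ι - 1) * L * n - 1) (Fintype.card ι * (L - 1) * n) P ∧
    (∀ J s, ∃ x : ℤ, (P J).coeff s = x ∧
      |x| ≤ ((2 * C : ℕ) : ℤ) ^ (4 * (Fintype.card ι * L) ^ 2 * n))

/-- S2: denominators -/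
def T_DEN : Prop := ∀ (ι : Type) [Fintype ι] [DecidableEq ι] (m k N τ E : ℕ)
  (Γ : ι → ι → PowerSeries ℚ) (P : ι → Polynomial ℚ), 1 ≤ N → (∀ J, (P J).natDegree ≤ m) →
  (∀ J s, ∃ x : ℤ, (P J).coeff s = x) →
  (∀ i j s, s ≤ k → ∃ x : ℤ, (E : ℚ) * (τ : ℚ) ^ s * PowerSeries.coeff s (Γ i j) = x) →
  ∀ J, ∃ x : ℤ, ((N : ℚ) ^ m * E * (τ : ℚ) ^ k) *
    PowerSeries.coeff k (gp (1 / (N : ℚ)) Γ P J) = x

/-- absolute convergence on the disc of radius `r` -/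
def Su (r : ℝ) (F : PowerSeries ℝ) : Prop := Summable fun s => |PowerSeries.coeff s F| * r ^ s

/-- expansion at `z0` -/
noncomputable def sh (z0 : ℝ) (F : PowerSeries ℝ) : PowerSeries ℝ :=
  PowerSeries.mk fun j => ∑' s, PowerSeries.coeff s F * ((s.choose j : ℕ) : ℝ) * z0 ^ (s - j)

/-- S0: the expansion at `z0` is a homomorphism, compatible with derivatives -/
def T_SH : Prop := ∀ z0 : ℝ, 0 < z0 →
  (∀ (r : ℝ) (F G : PowerSeries ℝ), 0 < r → Su r F → Su r G → Su r (F + G) ∧ Su r (F * G)) ∧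
  (∀ (r r' : ℝ) (F : PowerSeries ℝ), 0 < r' → r' < r → Su r F →
    Su r' (PowerSeries.derivative ℝ F)) ∧
  (∀ F G : PowerSeries ℝ, Su (2 * z0) F → Su (2 * z0) G → sh z0 (F + G) = sh z0 F + sh z0 G) ∧
  (∀ F G : PowerSeries ℝ, Su (2 * z0) F → Su (2 * z0) G → sh z0 (F * G) = sh z0 F * sh z0 G) ∧
  (∀ F : PowerSeries ℝ, Su (2 * z0) F →
    sh z0 (PowerSeries.derivative ℝ F) = PowerSeries.derivative ℝ (sh z0 F)) ∧
  (∀ p : Polynomial ℝ, (∀ r : ℝ, Su r (p : PowerSeries ℝ)) ∧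
    sh z0 (p : PowerSeries ℝ) = ((Polynomial.taylor z0 p : Polynomial ℝ) : PowerSeries ℝ))

/-- S3: smallness of the first nonzero coefficient (from S0) -/
def T_AN : Prop := ∀ (ι : Type) [Fintype ι] [DecidableEq ι] (S : Sys ι) (J0 : ι)
  (C N d m σ k : ℕ) (H : ℝ) (Γ : ι → ι → PowerSeries ℚ) (P : ι → Polynomial ℚ) (c : ι → ℤ),
  Ode S → PowerSeries.constantCoeff (S.f J0) = 1 → S.T.eval (1 / (N : ℚ)) ≠ 0 → 1 ≤ C → 1 ≤ d →
  8 * C ^ 2 ≤ N → (∀ i s, |PowerSeries.coeff s (S.f i)| ≤ (C : ℚ) ^ (s + 1)) →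
  Tr S (1 / (N : ℚ)) Γ →
  (∀ i j s, |PowerSeries.coeff s (Γ i j)| ≤ ((C : ℚ) * N) ^ (d * (s + 1))) →
  Pade S.f J0 m σ P → m < σ → (∀ J s, |((P J).coeff s : ℝ)| ≤ H) →
  ∑ J, (c J : ℝ) * val N (S.f J) = 0 →
  (∀ i, i < k → ∑ J, (c J : ℚ) * PowerSeries.coeff i (gp (1 / (N : ℚ)) Γ P J) = 0) →
  |∑ J, (c J : ℝ) * ((PowerSeries.coeff k (gp (1 / (N : ℚ)) Γ P J) : ℚ) : ℝ)| ≤
    16 * C * (m + 1) * H * Fintype.card ι * (∑ J, |(c J : ℝ)|) * ((C : ℝ) * N) ^ d *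
      (2 * ((C : ℝ) * N) ^ d) ^ k * (2 * (C : ℝ) / N) ^ σ

/-- the exponent in the theorem -/
def EE (M d : ℕ) : ℕ := 1000 * (M + 1) ^ 8 * (d + 1) ^ 3

/-- the theorem: for large `N` the values `f_J(1 / N)` are linearly independent over `ℚ`
(from Z5, S1, S2, S3) -/
def T_TG : Prop := ∀ (ι : Type) [Fintype ι] [DecidableEq ι] (S : Sys ι) (J0 : ι) (N C d : ℕ),
  GSys S J0 N C d → (2 * C) ^ EE (Fintype.card ι) d ≤ N →
  ∀ c : ι → ℤ, ∑ J, (c J : ℝ) * val N (S.f J) = 0 → c = 0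

end Pool.Agent.GF
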