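import Pool.Agent.GF.Targets

set_option autoImplicit false

/-!
# Smallness of the first nonzero coefficient (job AN)
-/

namespace Pool.Agent.GF

open Finset
open scoped BigOperators

namespace AN_

/-- the cast to real power series -/
noncomputable def ph : PowerSeries ℚ →+* PowerSeries ℝ := PowerSeries.map (algebraMap ℚ ℝ)

theorem coeff_ph (n : ℕ) (F : PowerSeries ℚ) :
    PowerSeries.coeff n (ph F) = ((PowerSeries.coeff n F : ℚ) : ℝ) := by
  simp [ph]

theorem ph_der (F : PowerSeries ℚ) :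
    ph (PowerSeries.derivative ℚ F) = PowerSeries.derivative ℝ (ph F) := by
  ext n
  rw [coeff_ph, PowerSeries.coeff_derivative, PowerSeries.coeff_derivative, coeff_ph]
  push_cast
  ring

theorem ph_coe (p : Polynomial ℚ) :
    ph (p : PowerSeries ℚ) = ((p.map (algebraMap ℚ ℝ) : Polynomial ℝ) : PowerSeries ℝ) := by
  ext n
  rw [coeff_ph]
  simp

/-- the real expansion of a polynomial at `z0` -/
noncomputable def tr (N : ℕ) (p : Polynomial ℚ) : PowerSeries ℝ :=
  ((Polynomial.taylor (1 / (N : ℝ)) (p.map (algebraMap ℚ ℝ)) : Polynomial ℝ) : PowerSeries ℝ)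

theorem ph_ty (N : ℕ) (p : Polynomial ℚ) : ph (ty (1 / (N : ℚ)) p) = tr N p := by
  rw [ty, ph_coe, tr, Polynomial.map_taylor]
  simp

/-- simple bound for `Su` -/
theorem su_of_bound {F : PowerSeries ℝ} {C r : ℝ} (hC : 0 ≤ C) (hr : 0 ≤ r) (hCr : C * r < 1)
    (hF : ∀ s, |PowerSeries.coeff s F| ≤ C ^ (s + 1)) : Su r F := by
  have h0 : 0 ≤ C * r := mul_nonneg hC hr
  refine Summable.of_nonneg_of_le (fun s => by positivity) (fun s => ?_)
    ((summable_geometric_of_lt_one h0 hCr).mul_left C)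
  calc |PowerSeries.coeff s F| * r ^ s ≤ C ^ (s + 1) * r ^ s := by gcongr; exact hF s
    _ = C * (C * r) ^ s := by rw [mul_pow]; ring

/-- the sum `∑ s ≥ σ` -/
theorem hasSum_tail (q K : ℝ) (hq0 : 0 ≤ q) (hq : q < 1) (σ : ℕ) :
    HasSum (fun s : ℕ => if σ ≤ s then K * q ^ s else 0) (K * q ^ σ * (1 - q)⁻¹) := by
  have h1 : HasSum (fun n : ℕ => K * q ^ σ * q ^ n) (K * q ^ σ * (1 - q)⁻¹) :=
    (hasSum_geometric_of_lt_one hq0 hq).mul_left _
  have hinj : Function.Injective (fun n : ℕ => n + σ) := add_left_injective σ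
  refine (hinj.hasSum_iff ?_).1 ?_
  · intro x hx
    rw [if_neg]
    intro h
    exact hx ⟨x - σ, by simp; omega⟩
  · convert h1 using 1
    ext n
    simp only [Function.comp_apply]
    rw [if_pos (Nat.le_add_left σ n), pow_add]
    ring

/-- bound for the coefficients of the expansion -/
theorem sh_bound {N : ℕ} {C σ j : ℕ} {B : ℝ} {R : PowerSeries ℝ} (hN : 1 ≤ N) (hB : 0 ≤ B)
    (hCN : 4 * C ≤ N) (h0 : ∀ s, s < σ → PowerSeries.coeff s R = 0)
    (h1 : ∀ s, |PowerSeries.coeff s R| ≤ B * (C : ℝ) ^ (s + 1)) :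
    |PowerSeries.coeff j (sh (1 / (N : ℝ)) R)| ≤
      2 * B * C * (N : ℝ) ^ j * (2 * (C : ℝ) / N) ^ σ := by
  have hNpos : (0 : ℝ) < N := by exact_mod_cast hN
  have hCN' : 4 * (C : ℝ) ≤ N := by exact_mod_cast hCN
  set q : ℝ := 2 * (C : ℝ) / N with hq
  have hq0 : 0 ≤ q := by positivity
  have hq2 : q ≤ 1 / 2 := by
    rw [hq, div_le_iff₀ hNpos]
    linarith
  have hq1 : q < 1 := by linarith
  have hs := hasSum_tail q (B * C * (N : ℝ) ^ j) hq0 hq1 σ
  have hle : |PowerSeries.coeff j (sh (1 / (N : ℝ)) R)| ≤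
      B * C * (N : ℝ) ^ j * q ^ σ * (1 - q)⁻¹ := by
    rw [sh, PowerSeries.coeff_mk, ← Real.norm_eq_abs]
    refine tsum_of_norm_bounded hs fun s => ?_
    rw [Real.norm_eq_abs, abs_mul, abs_mul, abs_pow]
    split_ifs with hσ
    · rcases lt_or_ge s j with hj | hj
      · rw [Nat.choose_eq_zero_of_lt hj]
        simp only [Nat.cast_zero, abs_zero, mul_zero, zero_mul]
        positivity
      · have e1 : |((s.choose j : ℕ) : ℝ)| ≤ 2 ^ s := by
          rw [abs_of_nonneg (by positivity)]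
          exact_mod_cast Nat.choose_le_two_pow s j
        have e2 : |1 / (N : ℝ)| ^ (s - j) = (N : ℝ) ^ j * (1 / (N : ℝ)) ^ s := by
          rw [abs_of_nonneg (by positivity)]
          conv_rhs => rw [← Nat.sub_add_cancel hj, pow_add]
          rw [mul_comm ((1 / (N : ℝ)) ^ (s - j)), ← mul_assoc, ← mul_pow,
            mul_one_div_cancel hNpos.ne', one_pow, one_mul]
        rw [e2]
        calc |PowerSeries.coeff s R| * |((s.choose j : ℕ) : ℝ)| *
              ((N : ℝ) ^ j * (1 / (N : ℝ)) ^ s)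
            ≤ (B * (C : ℝ) ^ (s + 1)) * 2 ^ s * ((N : ℝ) ^ j * (1 / (N : ℝ)) ^ s) := by
              gcongr
              exact h1 s
          _ = B * C * (N : ℝ) ^ j * q ^ s := by
              rw [hq, div_pow, div_pow, one_pow, mul_pow, pow_succ]
              field_simp
    · rw [h0 s (by omega)]
      simp
  refine hle.trans ?_
  have h3 : (1 - q)⁻¹ ≤ 2 := by
    rw [inv_le_comm₀ (by linarith) (by norm_num)]
    linarith
  have h4 : 0 ≤ B * C * (N : ℝ) ^ j * q ^ σ := by positivity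
  calc B * C * (N : ℝ) ^ j * q ^ σ * (1 - q)⁻¹ ≤ B * C * (N : ℝ) ^ j * q ^ σ * 2 := by gcongr
    _ = _ := by ring

/-- products of a polynomial and a series -/
theorem prod_bound {C : ℝ} {m : ℕ} {H : ℝ} {p : Polynomial ℝ} {F : PowerSeries ℝ} (hC : 1 ≤ C)
    (hH : ∀ s, |p.coeff s| ≤ H) (hp : p.natDegree ≤ m)
    (hF : ∀ s, |PowerSeries.coeff s F| ≤ C ^ (s + 1)) (s : ℕ) :
    |PowerSeries.coeff s ((p : PowerSeries ℝ) * F)| ≤ (m + 1) * H * C ^ (s + 1) := by
  have hH0 : 0 ≤ H := (abs_nonneg _).trans (hH 0)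
  rw [PowerSeries.coeff_mul, Finset.Nat.sum_antidiagonal_eq_sum_range_succ
    (fun a b => PowerSeries.coeff a (p : PowerSeries ℝ) * PowerSeries.coeff b F)]
  calc |∑ a ∈ range s.succ, PowerSeries.coeff a (p : PowerSeries ℝ) *
        PowerSeries.coeff (s - a) F|
      ≤ ∑ a ∈ range s.succ, |PowerSeries.coeff a (p : PowerSeries ℝ) *
        PowerSeries.coeff (s - a) F| := abs_sum_le_sum_abs _ _
    _ ≤ ∑ a ∈ range s.succ, if a < m + 1 then H * C ^ (s + 1) else 0 := by
        refine sum_le_sum fun a _ => ?_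
        rw [abs_mul, Polynomial.coeff_coe]
        split_ifs with ha
        · refine mul_le_mul (hH a) ((hF _).trans ?_) (abs_nonneg _) hH0
          exact pow_le_pow_right₀ hC (by omega)
        · rw [Polynomial.coeff_eq_zero_of_natDegree_lt (by omega)]
          simp
    _ = ∑ a ∈ (range s.succ).filter (· < m + 1), H * C ^ (s + 1) := by rw [sum_filter]
    _ ≤ ∑ a ∈ range (m + 1), H * C ^ (s + 1) := by
        refine sum_le_sum_of_subset_of_nonneg ?_ fun _ _ _ => by positivity
        intro a ha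
        simp only [mem_filter, mem_range] at ha ⊢
        exact ha.2
    _ = _ := by
        rw [sum_const, card_range, nsmul_eq_mul]
        push_cast
        ring

theorem su_zero (r : ℝ) : Su r 0 := by
  simp only [Su, map_zero, abs_zero, zero_mul]
  exact summable_zero

theorem sh_zero (z : ℝ) : sh z 0 = 0 := by
  ext j
  simp [sh]

theorem su_sum (h : T_SH) {z r : ℝ} (hz : 0 < z) (hr : 0 < r) {ι : Type} (s : Finset ι)
    (G : ι → PowerSeries ℝ) (hG : ∀ i ∈ s, Su r (G i)) : Su r (∑ i ∈ s, G i) := by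
  classical
  induction s using Finset.induction_on with
  | empty => simpa using su_zero r
  | insert a s ha ih =>
    rw [sum_insert ha]
    exact ((h z hz).1 r _ _ hr (hG a (mem_insert_self a s))
      (ih fun i hi => hG i (mem_insert_of_mem hi))).1

theorem sh_sum (h : T_SH) {z : ℝ} (hz : 0 < z) {ι : Type} (s : Finset ι)
    (G : ι → PowerSeries ℝ) (hG : ∀ i ∈ s, Su (2 * z) (G i)) :
    sh z (∑ i ∈ s, G i) = ∑ i ∈ s, sh z (G i) := by
  classical
  induction s using Finset.induction_on with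
  | empty => simpa using sh_zero z
  | insert a s ha ih =>
    rw [sum_insert ha, sum_insert ha, (h z hz).2.2.1 _ _ (hG a (mem_insert_self a s))
      (su_sum h hz (by positivity) s G fun i hi => hG i (mem_insert_of_mem hi)),
      ih fun i hi => hG i (mem_insert_of_mem hi)]

/-- the value at the centre -/
theorem coeff_zero_sh (N : ℕ) (f : PowerSeries ℚ) :
    PowerSeries.constantCoeff (sh (1 / (N : ℝ)) (ph f)) = val N f := by
  rw [← PowerSeries.coeff_zero_eq_constantCoeff_apply, sh, PowerSeries.coeff_mk, val]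
  refine tsum_congr fun s => ?_
  rw [coeff_ph, Nat.choose_zero_right, Nat.cast_one, mul_one, Nat.sub_zero]

/-- lower bound for the value of the series with constant coefficient `1` -/
theorem val_ge {N C : ℕ} {f : PowerSeries ℚ} (hC : 1 ≤ C) (hN : 8 * C ^ 2 ≤ N)
    (h1 : PowerSeries.constantCoeff f = 1)
    (hbd : ∀ s, |PowerSeries.coeff s f| ≤ (C : ℚ) ^ (s + 1)) : 1 / 2 ≤ |val N f| := by
  have hC' : (1 : ℝ) ≤ C := by exact_mod_cast hC
  have hN' : 8 * (C : ℝ) ^ 2 ≤ N := by exact_mod_cast hN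
  have hNpos : (0 : ℝ) < N := by nlinarith
  set q : ℝ := (C : ℝ) / N with hq
  have hq0 : 0 ≤ q := by positivity
  have hqC : C * q ≤ 1 / 8 := by
    rw [hq, ← mul_div_assoc, div_le_iff₀ hNpos]
    nlinarith
  have hq8 : q ≤ 1 / 8 := by nlinarith
  have hq1 : q < 1 := by linarith
  have hbd' : ∀ s, |((PowerSeries.coeff s f : ℚ) : ℝ)| ≤ (C : ℝ) ^ (s + 1) := by
    intro s
    exact_mod_cast hbd s
  have hterm : ∀ s, ‖((PowerSeries.coeff s f : ℚ) : ℝ) * (1 / (N : ℝ)) ^ s‖ ≤ C * q ^ s := by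
    intro s
    rw [Real.norm_eq_abs, abs_mul, abs_of_nonneg (by positivity : (0 : ℝ) ≤ (1 / (N : ℝ)) ^ s)]
    calc _ ≤ (C : ℝ) ^ (s + 1) * (1 / (N : ℝ)) ^ s := by gcongr; exact hbd' s
      _ = C * q ^ s := by rw [hq, div_pow, div_pow, one_pow, pow_succ]; ring
  have hsum : Summable fun s => ((PowerSeries.coeff s f : ℚ) : ℝ) * (1 / (N : ℝ)) ^ s :=
    Summable.of_norm_bounded ((summable_geometric_of_lt_one hq0 hq1).mul_left _) hterm
  have hval : val N f = 1 + ∑' s, ((PowerSeries.coeff (s + 1) f : ℚ) : ℝ) *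
      (1 / (N : ℝ)) ^ (s + 1) := by
    rw [val, hsum.tsum_eq_zero_add, PowerSeries.coeff_zero_eq_constantCoeff_apply, h1]
    simp
  have hrest : |∑' s, ((PowerSeries.coeff (s + 1) f : ℚ) : ℝ) * (1 / (N : ℝ)) ^ (s + 1)| ≤
      1 / 2 := by
    have hg : HasSum (fun s : ℕ => C * q * q ^ s) (C * q * (1 - q)⁻¹) :=
      (hasSum_geometric_of_lt_one hq0 hq1).mul_left _
    rw [← Real.norm_eq_abs]
    refine (tsum_of_norm_bounded hg fun s => (hterm (s + 1)).trans (le_of_eq ?_)).trans ?_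
    · rw [pow_succ]; ring
    · have : (1 - q)⁻¹ ≤ 2 := by
        rw [inv_le_comm₀ (by linarith) (by norm_num)]
        linarith
      have h0 : 0 ≤ C * q := by positivity
      nlinarith
  rw [hval]
  have h2 := abs_le.1 hrest
  rw [le_abs]
  left
  linarith [h2.1]

end AN_

open AN_

theorem p_AN (hSH : T_SH) : T_AN := by
  intro ι _ _ S J0 C N d m σ k H Γ P c hode hone hTz hC hd hN hbd hTr hΓ hP hmσ hH hval hlow
  have hC' : (1 : ℝ) ≤ C := by exact_mod_cast hC
  have hN' : 8 * (C : ℝ) ^ 2 ≤ N := by exact_mod_cast hN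
  have hNpos : (0 : ℝ) < N := by nlinarith
  have hN1 : 1 ≤ N := by
    have : 0 < N := by exact_mod_cast hNpos
    exact this
  have h8 : 8 * (C : ℝ) ≤ N := by nlinarith
  set z : ℝ := 1 / (N : ℝ) with hz
  have hz0 : 0 < z := by positivity
  obtain ⟨hcl, hder, hadd, hmul, hshd, hpol⟩ := hSH z hz0
  have hCz : (C : ℝ) * (4 * z) ≤ 1 / 2 := by
    rw [hz, mul_one_div, ← mul_div_assoc, div_le_iff₀ hNpos]
    linarith
  have hbd' : ∀ i s, |PowerSeries.coeff s (ph (S.f i))| ≤ (C : ℝ) ^ (s + 1) := by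
    intro i s
    rw [coeff_ph]
    exact_mod_cast hbd i s
  have su4 : ∀ i, Su (4 * z) (ph (S.f i)) := fun i =>
    su_of_bound (by positivity) (by positivity) (by linarith) (hbd' i)
  have su2 : ∀ i, Su (2 * z) (ph (S.f i)) := fun i =>
    su_of_bound (C := C) (by positivity) (by positivity) (by nlinarith) (hbd' i)
  have su2d : ∀ i, Su (2 * z) (PowerSeries.derivative ℝ (ph (S.f i))) := fun i =>
    hder (4 * z) (2 * z) _ (by positivity) (by linarith) (su4 i)
  have supol : ∀ p : Polynomial ℚ, Su (2 * z) (ph (p : PowerSeries ℚ)) := by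
    intro p
    rw [ph_coe]
    exact (hpol _).1 _
  have shpol : ∀ p : Polynomial ℚ, sh z (ph (p : PowerSeries ℚ)) = tr N p := by
    intro p
    rw [ph_coe, (hpol _).2]
    rfl
  -- the equation at `z0`
  have hodet : ∀ J, tr N S.T * PowerSeries.derivative ℝ (sh z (ph (S.f J))) =
      ∑ I, tr N (S.A J I) * sh z (ph (S.f I)) := by
    intro J
    have h1 := congrArg (fun G => sh z (ph G)) (hode J)
    simp only [map_mul, map_sum] at h1
    rw [hmul _ _ (supol _) (by rw [ph_der]; exact su2d J), ph_der, hshd _ (su2 J), shpol,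
      sh_sum hSH hz0 _ _ fun i _ => (hcl _ _ _ (by positivity) (supol _) (su2 i)).2] at h1
    rw [h1]
    refine sum_congr rfl fun I _ => ?_
    rw [hmul _ _ (supol _) (su2 I), shpol]
  have hodeG : ∀ i j, tr N S.T * PowerSeries.derivative ℝ (ph (Γ i j)) =
      - ∑ l, ph (Γ i l) * tr N (S.A l j) := by
    intro i j
    have h1 := congrArg ph (hTr.ode i j)
    rw [map_mul, ph_der, map_neg, map_sum, ph_ty] at h1
    rw [h1]
    congr 1
    refine sum_congr rfl fun l _ => ?_
    rw [map_mul, ph_ty]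
  have hT0 : tr N S.T ≠ 0 := by
    intro h0
    have h1 := congrArg PowerSeries.constantCoeff h0
    rw [tr, Polynomial.constantCoeff_coe, Polynomial.taylor_coeff_zero, map_zero,
      Polynomial.eval_map_algebraMap] at h1
    have h2 : Polynomial.aeval (1 / (N : ℝ)) S.T =
        algebraMap ℚ ℝ (Polynomial.aeval (1 / (N : ℚ)) S.T) := by
      rw [← Polynomial.aeval_algebraMap_apply]
      simp
    rw [h2, Polynomial.coe_aeval_eq_eval] at h1
    exact hTz (by simpa using h1)
  -- `Γ f` is constant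
  have hconst : ∀ J, ∑ I, ph (Γ J I) * sh z (ph (S.f I)) =
      PowerSeries.C (val N (S.f J)) := by
    intro J
    refine PowerSeries.derivative.ext ?_ ?_
    · rw [PowerSeries.derivative_C]
      refine mul_left_cancel₀ hT0 ?_
      rw [mul_zero, map_sum, mul_sum]
      have h1 : ∀ I, tr N S.T * PowerSeries.derivative ℝ (ph (Γ J I) * sh z (ph (S.f I))) =
          ∑ l, (ph (Γ J I) * (tr N (S.A I l) * sh z (ph (S.f l)))) -
            ∑ l, (ph (Γ J l) * tr N (S.A l I)) * sh z (ph (S.f I)) := by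
        intro I
        rw [Derivation.leibniz, smul_eq_mul, smul_eq_mul, mul_add]
        have e1 : tr N S.T * (ph (Γ J I) * PowerSeries.derivative ℝ (sh z (ph (S.f I)))) =
            ph (Γ J I) * (tr N S.T * PowerSeries.derivative ℝ (sh z (ph (S.f I)))) := by ring
        have e2 : tr N S.T * (sh z (ph (S.f I)) * PowerSeries.derivative ℝ (ph (Γ J I))) =
            (tr N S.T * PowerSeries.derivative ℝ (ph (Γ J I))) * sh z (ph (S.f I)) := by ring
        rw [e1, e2, hodet, hodeG, mul_sum, neg_mul, sum_mul, sub_eq_add_neg]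
      rw [sum_congr rfl fun I _ => h1 I, sum_sub_distrib, sub_eq_zero]
      rw [sum_comm]
      refine sum_congr rfl fun I _ => sum_congr rfl fun l _ => ?_
      ring
    · rw [map_sum, PowerSeries.constantCoeff_C]
      have h1 : ∀ I, PowerSeries.constantCoeff (ph (Γ J I) * sh z (ph (S.f I))) =
          if J = I then val N (S.f I) else 0 := by
        intro I
        rw [map_mul, coeff_zero_sh, ← PowerSeries.coeff_zero_eq_constantCoeff_apply, coeff_ph,
          PowerSeries.coeff_zero_eq_constantCoeff_apply, hTr.init]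
        split_ifs <;> simp
      rw [sum_congr rfl fun I _ => h1 I]
      simp
  have hH0 : 0 ≤ H := (abs_nonneg _).trans (hH J0 0)
  -- the remainders
  set R : ι → PowerSeries ℝ := fun I =>
    ph ((P I : PowerSeries ℚ) * S.f J0 - (P J0 : PowerSeries ℚ) * S.f I) with hR
  have hR0 : ∀ I s, s < σ → PowerSeries.coeff s (R I) = 0 := by
    intro I s hs
    rw [hR, coeff_ph, (PowerSeries.X_pow_dvd_iff.1 (hP.ord I)) s hs, Rat.cast_zero]
  have hPc : ∀ J s, |((P J).map (algebraMap ℚ ℝ)).coeff s| ≤ H := by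
    intro J s
    rw [Polynomial.coeff_map]
    exact hH J s
  have hPd : ∀ J, ((P J).map (algebraMap ℚ ℝ)).natDegree ≤ m := fun J =>
    (Polynomial.natDegree_map_le).trans (hP.deg J)
  have hRb : ∀ I s, |PowerSeries.coeff s (R I)| ≤ 2 * (m + 1) * H * (C : ℝ) ^ (s + 1) := by
    intro I s
    have e : R I = (((P I).map (algebraMap ℚ ℝ) : Polynomial ℝ) : PowerSeries ℝ) * ph (S.f J0) -
        (((P J0).map (algebraMap ℚ ℝ) : Polynomial ℝ) : PowerSeries ℝ) * ph (S.f I) := by
      simp only [hR]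
      rw [map_sub, map_mul, map_mul, ph_coe, ph_coe]
    rw [e, map_sub]
    have b1 := prod_bound hC' (hPc I) (hPd I) (hbd' J0) s
    have b2 := prod_bound hC' (hPc J0) (hPd J0) (hbd' I) s
    refine (abs_sub _ _).trans ((add_le_add b1 b2).trans (le_of_eq ?_))
    ring
  have hshR : ∀ I, sh z (R I) =
      tr N (P I) * sh z (ph (S.f J0)) - tr N (P J0) * sh z (ph (S.f I)) := by
    intro I
    have e : R I = ph (P I : PowerSeries ℚ) * ph (S.f J0) +
        ph ((-(P J0) : Polynomial ℚ) : PowerSeries ℚ) * ph (S.f I) := by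
      simp only [hR]
      rw [map_sub, map_mul, map_mul, Polynomial.coe_neg, map_neg, neg_mul, sub_eq_add_neg]
    have e2 : tr N (-(P J0)) = - tr N (P J0) := by
      simp [tr]
    rw [e, hadd _ _ (hcl _ _ _ (by positivity) (supol _) (su2 J0)).2
      (hcl _ _ _ (by positivity) (supol _) (su2 I)).2, hmul _ _ (supol _) (su2 J0),
      hmul _ _ (supol _) (su2 I), shpol, shpol, e2, neg_mul, sub_eq_add_neg]
  have hshb : ∀ I j, |PowerSeries.coeff j (sh z (R I))| ≤
      4 * (m + 1) * H * C * (N : ℝ) ^ j * (2 * (C : ℝ) / N) ^ σ := by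
    intro I j
    have h4 : 4 * C ≤ N := by
      have : 4 * (C : ℝ) ≤ N := by linarith
      exact_mod_cast this
    have := sh_bound (j := j) hN1 (by positivity : (0 : ℝ) ≤ 2 * (m + 1) * H) h4 (hR0 I) (hRb I)
    refine this.trans (le_of_eq ?_)
    ring
  -- the main identity
  have hX : ∑ J, PowerSeries.C ((c J : ℝ)) * ∑ I, ph (Γ J I) * sh z (R I) =
      sh z (ph (S.f J0)) *
        ∑ J, PowerSeries.C ((c J : ℝ)) * ph (gp (1 / (N : ℚ)) Γ P J) := by
    have h1 : ∀ J, ∑ I, ph (Γ J I) * sh z (R I) =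
        sh z (ph (S.f J0)) * ph (gp (1 / (N : ℚ)) Γ P J) -
          tr N (P J0) * PowerSeries.C (val N (S.f J)) := by
      intro J
      rw [← hconst J, gp, map_sum, mul_sum, mul_sum, ← sum_sub_distrib]
      refine sum_congr rfl fun I _ => ?_
      rw [hshR, map_mul, ph_ty]
      ring
    have h2 : ∑ J, PowerSeries.C ((c J : ℝ)) * PowerSeries.C (val N (S.f J)) =
        (0 : PowerSeries ℝ) := by
      rw [← map_zero (PowerSeries.C (R := ℝ)), ← hval, map_sum]
      refine sum_congr rfl fun J _ => ?_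
      rw [map_mul]
    rw [sum_congr rfl fun J _ => by rw [h1 J, mul_sub], sum_sub_distrib, mul_sum]
    have h3 : ∑ J, PowerSeries.C ((c J : ℝ)) * (tr N (P J0) * PowerSeries.C (val N (S.f J))) =
        tr N (P J0) * ∑ J, PowerSeries.C ((c J : ℝ)) * PowerSeries.C (val N (S.f J)) := by
      rw [mul_sum]
      exact sum_congr rfl fun J _ => by ring
    rw [h3, h2, mul_zero, sub_zero]
    exact sum_congr rfl fun J _ => by ring
  -- coefficient `k`
  set Λ : ℝ := ∑ J, (c J : ℝ) * ((PowerSeries.coeff k (gp (1 / (N : ℚ)) Γ P J) : ℚ) : ℝ) with hΛ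
  have hcoefh : ∀ j, PowerSeries.coeff j
      (∑ J, PowerSeries.C ((c J : ℝ)) * ph (gp (1 / (N : ℚ)) Γ P J)) =
      ∑ J, (c J : ℝ) * ((PowerSeries.coeff j (gp (1 / (N : ℚ)) Γ P J) : ℚ) : ℝ) := by
    intro j
    rw [map_sum]
    exact sum_congr rfl fun J _ => by rw [PowerSeries.coeff_C_mul, coeff_ph]
  have hlow' : ∀ j, j < k → PowerSeries.coeff j
      (∑ J, PowerSeries.C ((c J : ℝ)) * ph (gp (1 / (N : ℚ)) Γ P J)) = 0 := by
    intro j hj
    rw [hcoefh]
    have := hlow j hj
    exact_mod_cast this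
  have hXk : ∑ J, (c J : ℝ) * PowerSeries.coeff k (∑ I, ph (Γ J I) * sh z (R I)) =
      val N (S.f J0) * Λ := by
    have h1 := congrArg (PowerSeries.coeff k) hX
    rw [map_sum, PowerSeries.coeff_mul, Finset.sum_eq_single (0, k)] at h1
    · rw [PowerSeries.coeff_zero_eq_constantCoeff_apply, coeff_zero_sh, hcoefh] at h1
      rw [← h1]
      exact sum_congr rfl fun J _ => by rw [PowerSeries.coeff_C_mul]
    · rintro ⟨i, j⟩ hij hne
      rw [HasAntidiagonal.mem_antidiagonal] at hij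
      have hj : j < k := by
        rcases Nat.eq_zero_or_pos i with h0 | h0
        · exact absurd (by simp only [Prod.mk.injEq]; omega) hne
        · simp only at hij; omega
      simp only
      rw [hlow' j hj, mul_zero]
    · intro h
      exact absurd (by simp) h
  have hCN1 : (1 : ℝ) ≤ (C : ℝ) * N := by nlinarith
  have hΓr : ∀ J I i, |PowerSeries.coeff i (ph (Γ J I))| ≤ ((C : ℝ) * N) ^ (d * (i + 1)) := by
    intro J I i
    rw [coeff_ph]
    exact_mod_cast hΓ J I i
  set B : ℝ := 4 * (m + 1) * H * C * (2 * (C : ℝ) / N) ^ σ with hBdef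
  have hB0 : 0 ≤ B := by positivity
  have hJI : ∀ J I, |PowerSeries.coeff k (ph (Γ J I) * sh z (R I))| ≤
      (k + 1) * (((C : ℝ) * N) ^ (d * (k + 1)) * B) := by
    intro J I
    rw [PowerSeries.coeff_mul]
    calc |∑ x ∈ antidiagonal k, PowerSeries.coeff x.1 (ph (Γ J I)) *
          PowerSeries.coeff x.2 (sh z (R I))|
        ≤ ∑ x ∈ antidiagonal k, |PowerSeries.coeff x.1 (ph (Γ J I)) *
          PowerSeries.coeff x.2 (sh z (R I))| := abs_sum_le_sum_abs _ _
      _ ≤ ∑ x ∈ antidiagonal k, ((C : ℝ) * N) ^ (d * (k + 1)) * B := by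
          refine sum_le_sum fun x hx => ?_
          rw [HasAntidiagonal.mem_antidiagonal] at hx
          rw [abs_mul]
          have e1 : (N : ℝ) ^ x.2 ≤ ((C : ℝ) * N) ^ (d * x.2) := by
            calc (N : ℝ) ^ x.2 ≤ ((C : ℝ) * N) ^ x.2 := by
                  gcongr
                  nlinarith
              _ ≤ ((C : ℝ) * N) ^ (d * x.2) := by
                  refine pow_le_pow_right₀ hCN1 ?_
                  exact Nat.le_mul_of_pos_left _ hd
          calc |PowerSeries.coeff x.1 (ph (Γ J I))| * |PowerSeries.coeff x.2 (sh z (R I))|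
              ≤ ((C : ℝ) * N) ^ (d * (x.1 + 1)) *
                (4 * (m + 1) * H * C * (N : ℝ) ^ x.2 * (2 * (C : ℝ) / N) ^ σ) :=
                mul_le_mul (hΓr J I x.1) (hshb I x.2) (abs_nonneg _) (by positivity)
            _ ≤ ((C : ℝ) * N) ^ (d * (x.1 + 1)) *
                (4 * (m + 1) * H * C * ((C : ℝ) * N) ^ (d * x.2) * (2 * (C : ℝ) / N) ^ σ) := by
                gcongr
            _ = ((C : ℝ) * N) ^ (d * (x.1 + 1) + d * x.2) * B := by
                rw [pow_add, hBdef]; ring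
            _ = ((C : ℝ) * N) ^ (d * (k + 1)) * B := by
                congr 2
                rw [← hx]; ring
      _ = _ := by
          rw [sum_const, Finset.Nat.card_antidiagonal, nsmul_eq_mul]
          push_cast
          ring
  have hXb : |val N (S.f J0) * Λ| ≤ (∑ J, |(c J : ℝ)|) *
      (Fintype.card ι * ((k + 1) * (((C : ℝ) * N) ^ (d * (k + 1)) * B))) := by
    rw [← hXk, sum_mul]
    refine (abs_sum_le_sum_abs _ _).trans (sum_le_sum fun J _ => ?_)
    rw [abs_mul]
    refine mul_le_mul_of_nonneg_left ?_ (abs_nonneg _)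
    rw [map_sum]
    refine (abs_sum_le_sum_abs _ _).trans ?_
    calc ∑ I, |PowerSeries.coeff k (ph (Γ J I) * sh z (R I))|
        ≤ ∑ _I : ι, (k + 1) * (((C : ℝ) * N) ^ (d * (k + 1)) * B) :=
          sum_le_sum fun I _ => hJI J I
      _ = _ := by rw [sum_const, card_univ, nsmul_eq_mul]
  have hv := val_ge hC hN hone (hbd J0)
  have hk2 : (k : ℝ) + 1 ≤ 2 ^ k := by
    have : k + 1 ≤ 2 ^ k := Nat.lt_two_pow_self
    exact_mod_cast this
  have hc0 : 0 ≤ ∑ J, |(c J : ℝ)| := sum_nonneg fun _ _ => abs_nonneg _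
  have hΛ2 : |Λ| ≤ 2 * |val N (S.f J0) * Λ| := by
    rw [abs_mul]
    have := abs_nonneg Λ
    nlinarith
  calc |Λ| ≤ 2 * |val N (S.f J0) * Λ| := hΛ2
    _ ≤ 2 * ((∑ J, |(c J : ℝ)|) *
        (Fintype.card ι * ((k + 1) * (((C : ℝ) * N) ^ (d * (k + 1)) * B)))) := by gcongr
    _ ≤ 2 * ((∑ J, |(c J : ℝ)|) *
        (Fintype.card ι * (2 ^ k * (((C : ℝ) * N) ^ (d * (k + 1)) * B)))) := by gcongr
    _ = 8 * C * (m + 1) * H * Fintype.card ι * (∑ J, |(c J : ℝ)|) * ((C : ℝ) * N) ^ d *
        (2 * ((C : ℝ) * N) ^ d) ^ k * (2 * (C : ℝ) / N) ^ σ := by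
        rw [hBdef, mul_pow 2, ← pow_mul ((C : ℝ) * N) d k, Nat.mul_add, mul_one, pow_add]
        ring
    _ ≤ _ := by
        gcongr
        norm_num

end Pool.Agent.GF
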