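import Pool.Agent.GF.Targets

set_option autoImplicit false

/-!
# GF: degree of the determinant
-/

namespace Pool.Agent.GF

open Finset Polynomial
open scoped BigOperators

namespace DEG_

lemma VV_deg {ι : Type} [Fintype ι] (S : Sys ι) {m d : ℕ} (P : ι → Polynomial ℚ)
    (hT : S.T.natDegree ≤ d) (hA : ∀ i j, (S.A i j).natDegree ≤ d)
    (hP : ∀ J, (P J).natDegree ≤ m) (k : ℕ) :
    ∀ J, (VV S P k J).natDegree ≤ m + k * d := by
  induction k with
  | zero =>
    intro J
    simpa [VV] using hP J
  | succ k ih =>
    intro J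
    have e : VV S P (k + 1) = Dv S (VV S P k) := by
      unfold VV
      rw [Function.iterate_succ_apply']
    rw [e]
    have h3 : (k + 1) * d = k * d + d := by ring
    have t1 : (S.T * derivative (VV S P k J)).natDegree ≤ m + (k + 1) * d := by
      refine natDegree_mul_le.trans ?_
      have h1 := natDegree_derivative_le (VV S P k J)
      have h2 := ih J
      omega
    have t2 : (∑ j, S.A J j * VV S P k j).natDegree ≤ m + (k + 1) * d := by
      refine natDegree_sum_le_of_forall_le _ _ fun j _ => ?_
      refine natDegree_mul_le.trans ?_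
      have h0 := hA J j
      have h2 := ih j
      omega
    exact (natDegree_sub_le _ _).trans (max_le t1 t2)

end DEG_

open DEG_ in
theorem p_DEG : T_DEG := by
  intro ι _ _ S m d P hT hA hP
  have e : WW S P = ∑ σ : Equiv.Perm ι, Equiv.Perm.sign σ •
      ∏ i, VV S P (num (σ i)) i := Matrix.det_apply _
  rw [e]
  refine natDegree_sum_le_of_forall_le _ _ fun σ _ => ?_
  refine (natDegree_smul_le _ _).trans ?_
  refine (natDegree_prod_le _ _).trans ?_
  have hnum : ∀ K : ι, num K ≤ Fintype.card ι := fun K => (Fintype.equivFin ι K).isLt.le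
  have h1 : ∀ K : ι, (VV S P (num (σ K)) K).natDegree ≤ m + Fintype.card ι * d := by
    intro K
    refine (VV_deg S P hT hA hP _ K).trans ?_
    exact Nat.add_le_add_left (Nat.mul_le_mul_right _ (hnum _)) _
  refine (sum_le_sum fun K _ => h1 K).trans ?_
  rw [sum_const, card_univ, smul_eq_mul]
  apply le_of_eq
  ring

end Pool.Agent.GF
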