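import Pool.Agent.GF.Targets

set_option autoImplicit false

/-!
# GF, entry DEN: denominators
-/

namespace Pool.Agent.GF

open Finset
open scoped BigOperators

namespace DEN_

/-- finite sums of integers are integers -/
theorem int_sum {α : Type*} (s : Finset α) (F : α → ℚ) (h : ∀ i ∈ s, ∃ x : ℤ, F i = x) :
    ∃ x : ℤ, ∑ i ∈ s, F i = x := by
  have h' : ∀ i, ∃ x : ℤ, i ∈ s → F i = x := by
    intro i
    by_cases hi : i ∈ s
    · obtain ⟨x, hx⟩ := h i hi
      exact ⟨x, fun _ => hx⟩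
    · exact ⟨0, fun h => absurd h hi⟩
  choose x hx using h'
  refine ⟨∑ i ∈ s, x i, ?_⟩
  push_cast
  exact sum_congr rfl hx

/-- the Taylor polynomials -/
theorem den_ty {m N : ℕ} (hN : 1 ≤ N) {p : Polynomial ℚ} (hp : p.natDegree ≤ m)
    (hc : ∀ s, ∃ x : ℤ, p.coeff s = x) (j : ℕ) :
    ∃ x : ℤ, (N : ℚ) ^ m * PowerSeries.coeff j (ty (1 / (N : ℚ)) p) = x := by
  choose x hx using hc
  have hN' : (N : ℚ) ≠ 0 := by exact_mod_cast (by omega : N ≠ 0)
  rw [ty, Polynomial.coeff_coe, Polynomial.taylor_coeff, Polynomial.hasseDeriv_apply,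
    Polynomial.sum_def, Polynomial.eval_finsetSum]
  refine ⟨∑ s ∈ p.support, (s.choose j) * x s * (N : ℤ) ^ (m - (s - j)), ?_⟩
  rw [mul_sum]
  push_cast
  refine sum_congr rfl fun s hs => ?_
  have hsm : s ≤ m := (Polynomial.le_natDegree_of_mem_supp s hs).trans hp
  rw [Polynomial.eval_monomial, ← hx]
  have h1 : (N : ℚ) ^ m = (N : ℚ) ^ (m - (s - j)) * (N : ℚ) ^ (s - j) := by
    rw [← pow_add]; congr 1; omega
  rw [h1, one_div, inv_pow]
  field_simp

end DEN_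

open DEN_

theorem p_DEN : T_DEN := by
  intro ι _ _ m k N τ E Γ P hN hdeg hint hG J
  rw [gp, map_sum, mul_sum]
  refine int_sum _ _ fun l _ => ?_
  rw [PowerSeries.coeff_mul, mul_sum]
  refine int_sum _ _ fun p hp => ?_
  have hp' := mem_antidiagonal.1 hp
  obtain ⟨x, hx⟩ := hG J l p.1 (by omega)
  obtain ⟨y, hy⟩ := den_ty hN (hdeg l) (hint l) p.2
  refine ⟨x * (τ : ℤ) ^ p.2 * y, ?_⟩
  push_cast
  rw [← hx, ← hy, ← hp']
  ring

end Pool.Agent.GF
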