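import Pool.Agent.GF.Targets

set_option autoImplicit false

/-!
# GF-NONZ: the determinant of the iterates does not vanish
-/

open Finset Polynomial
open scoped BigOperators

namespace Pool.Agent.GF

namespace NONZ_

variable {ι : Type} [Fintype ι]

/-- `F · v` -/
noncomputable def dt (F : ι → PowerSeries ℚ) (v : ι → ℚ[X]) : PowerSeries ℚ :=
  ∑ J, F J * (v J : PowerSeries ℚ)

/-- `F · f` -/
noncomputable def df (S : Sys ι) (F : ι → PowerSeries ℚ) : PowerSeries ℚ := ∑ J, F J * S.f J

/-- the dual connection -/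
noncomputable def ds (S : Sys ι) (F : ι → PowerSeries ℚ) (j : ι) : PowerSeries ℚ :=
  (S.T : PowerSeries ℚ) * PowerSeries.derivative ℚ (F j) + ∑ i, F i * (S.A i j : PowerSeries ℚ)

theorem leib (a b : PowerSeries ℚ) : PowerSeries.derivative ℚ (a * b) =
    a * PowerSeries.derivative ℚ b + b * PowerSeries.derivative ℚ a := by
  rw [Derivation.leibniz]; rfl

theorem id1 (S : Sys ι) (F : ι → PowerSeries ℚ) (v : ι → ℚ[X]) :
    (S.T : PowerSeries ℚ) * PowerSeries.derivative ℚ (dt F v) =
      dt (ds S F) v + dt F (Dv S v) := by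
  have h1 : ∑ J, (∑ i, F i * (S.A i J : PowerSeries ℚ)) * (v J : PowerSeries ℚ) =
      ∑ J, F J * ∑ j, (S.A J j : PowerSeries ℚ) * (v j : PowerSeries ℚ) := by
    simp only [Finset.sum_mul, Finset.mul_sum]
    rw [Finset.sum_comm]
    refine Finset.sum_congr rfl fun J _ => Finset.sum_congr rfl fun i _ => ?_
    ring
  unfold dt ds Dv
  rw [map_sum, Finset.mul_sum]
  have h2 : ∀ J, ((S.T * derivative (v J) - ∑ j, S.A J j * v j : ℚ[X]) : PowerSeries ℚ) =
      (S.T : PowerSeries ℚ) * PowerSeries.derivative ℚ (v J : PowerSeries ℚ) -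
        ∑ j, (S.A J j : PowerSeries ℚ) * (v j : PowerSeries ℚ) := by
    intro J
    rw [PowerSeries.derivative_coe]
    have := map_sum (Polynomial.coeToPowerSeries.ringHom (R := ℚ)) (fun j => S.A J j * v j)
      Finset.univ
    simp only [Polynomial.coeToPowerSeries.ringHom_apply, Polynomial.coe_mul] at this
    rw [Polynomial.coe_sub, Polynomial.coe_mul, this]
  simp only [h2, add_mul, mul_sub, Finset.sum_add_distrib, Finset.sum_sub_distrib, h1]
  rw [add_assoc, add_comm (∑ J, F J * _), sub_add_cancel]
  rw [← Finset.sum_add_distrib]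
  refine Finset.sum_congr rfl fun J _ => ?_
  rw [leib]
  ring

theorem id2 (S : Sys ι) (hO : Ode S) (F : ι → PowerSeries ℚ) :
    (S.T : PowerSeries ℚ) * PowerSeries.derivative ℚ (df S F) = df S (ds S F) := by
  unfold df ds
  rw [map_sum, Finset.mul_sum]
  have h1 : ∑ J, (∑ i, F i * (S.A i J : PowerSeries ℚ)) * S.f J =
      ∑ J, F J * ∑ j, (S.A J j : PowerSeries ℚ) * S.f j := by
    simp only [Finset.sum_mul, Finset.mul_sum]
    rw [Finset.sum_comm]
    refine Finset.sum_congr rfl fun J _ => Finset.sum_congr rfl fun i _ => ?_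
    ring
  simp only [add_mul, Finset.sum_add_distrib, h1]
  rw [← Finset.sum_add_distrib]
  refine Finset.sum_congr rfl fun J _ => ?_
  rw [leib, ← hO J]
  ring

/-- all `F · V_k` vanish -/
def La (S : Sys ι) (P : ι → ℚ[X]) (F : ι → PowerSeries ℚ) : Prop := ∀ k, dt F (VV S P k) = 0

theorem La_ds {S : Sys ι} {P : ι → ℚ[X]} {F : ι → PowerSeries ℚ} (h : La S P F) :
    La S P (ds S F) := by
  intro k
  have h1 := id1 S F (VV S P k)
  have h2 : Dv S (VV S P k) = VV S P (k + 1) := by
    unfold VV
    rw [Function.iterate_succ_apply']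
  rw [h2, h k, h (k + 1)] at h1
  simpa using h1.symm

theorem dt_X (G : ι → PowerSeries ℚ) (v : ι → ℚ[X]) :
    dt (fun J => PowerSeries.X * G J) v = PowerSeries.X * dt G v := by
  unfold dt
  rw [Finset.mul_sum]
  exact Finset.sum_congr rfl fun J _ => by ring

theorem df_X (S : Sys ι) (G : ι → PowerSeries ℚ) :
    df S (fun J => PowerSeries.X * G J) = PowerSeries.X * df S G := by
  unfold df
  rw [Finset.mul_sum]
  exact Finset.sum_congr rfl fun J _ => by ring

theorem La_X {S : Sys ι} {P : ι → ℚ[X]} {G : ι → PowerSeries ℚ}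
    (h : La S P (fun J => PowerSeries.X * G J)) : La S P G := by
  intro k
  have h1 := h k
  rw [dt_X] at h1
  exact (mul_eq_zero.1 h1).resolve_left PowerSeries.X_ne_zero

/-- (4) -/
theorem four (S : Sys ι) (J0 : ι) (m σ : ℕ) (P : ι → ℚ[X]) (hm : m < σ)
    (hP : Pade S.f J0 m σ P) (F : ι → PowerSeries ℚ) (hF : dt F P = 0) :
    PowerSeries.constantCoeff (df S F) = 0 := by
  have h1 : (PowerSeries.X : PowerSeries ℚ) ^ σ ∣ (P J0 : PowerSeries ℚ) * df S F := by
    have e : (P J0 : PowerSeries ℚ) * df S F = - ∑ J, F J *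
        ((P J : PowerSeries ℚ) * S.f J0 - (P J0 : PowerSeries ℚ) * S.f J) := by
      have e1 : ∑ J, F J * ((P J : PowerSeries ℚ) * S.f J0 - (P J0 : PowerSeries ℚ) * S.f J) =
          dt F P * S.f J0 - (P J0 : PowerSeries ℚ) * df S F := by
        unfold dt df
        rw [Finset.sum_mul, Finset.mul_sum, ← Finset.sum_sub_distrib]
        exact Finset.sum_congr rfl fun J _ => by ring
      rw [e1, hF]
      ring
    rw [e, dvd_neg]
    exact Finset.dvd_sum fun J _ => Dvd.dvd.mul_left (hP.ord J) _
  obtain ⟨Q, hQ1, hQ2⟩ := exists_eq_pow_rootMultiplicity_mul_and_not_dvd (P J0) hP.ne 0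
  set u := rootMultiplicity 0 (P J0) with hu
  rw [map_zero, sub_zero] at hQ1 hQ2
  have hQ0 : Q ≠ 0 := by
    rintro rfl
    exact hQ2 (dvd_zero _)
  have hum : u ≤ m := by
    have h2 := hP.deg J0
    rw [hQ1, natDegree_X_pow_mul] at h2
    · omega
    · exact hQ0
  have hcc : PowerSeries.constantCoeff (Q : PowerSeries ℚ) ≠ 0 := by
    rw [← PowerSeries.coeff_zero_eq_constantCoeff_apply, Polynomial.coeff_coe]
    intro h
    exact hQ2 (X_dvd_iff.2 h)
  have h3 : (PowerSeries.X : PowerSeries ℚ) ^ (σ - u) ∣ (Q : PowerSeries ℚ) * df S F := by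
    have h4 : (PowerSeries.X : PowerSeries ℚ) ^ σ = PowerSeries.X ^ u * PowerSeries.X ^ (σ - u) := by
      rw [← pow_add]; congr 1; omega
    rw [h4, hQ1, Polynomial.coe_mul, Polynomial.coe_pow, Polynomial.coe_X, mul_assoc] at h1
    exact (mul_dvd_mul_iff_left (pow_ne_zero _ PowerSeries.X_ne_zero)).1 h1
  have h5 : (PowerSeries.X : PowerSeries ℚ) ∣ (Q : PowerSeries ℚ) * df S F :=
    dvd_trans (dvd_pow_self _ (by omega)) h3
  rw [PowerSeries.X_dvd_iff, map_mul] at h5
  exact (mul_eq_zero.1 h5).resolve_left hcc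

theorem coef1 (k : ℕ) (T G1 : PowerSeries ℚ) :
    PowerSeries.coeff k (T * PowerSeries.derivative ℚ (PowerSeries.X ^ (k + 1) * G1)) =
      PowerSeries.constantCoeff T * ((k + 1 : ℕ) * PowerSeries.constantCoeff G1) := by
  have e : T * PowerSeries.derivative ℚ (PowerSeries.X ^ (k + 1) * G1) =
      PowerSeries.X ^ k * (T * (((k + 1 : ℕ) : PowerSeries ℚ) * G1 +
        PowerSeries.X * PowerSeries.derivative ℚ G1)) := by
    rw [leib, Derivation.leibniz_pow, PowerSeries.derivative_X]
    simp only [Nat.add_sub_cancel, smul_eq_mul, nsmul_eq_mul, mul_one, pow_succ]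
    ring
  rw [e]
  have h := PowerSeries.coeff_X_pow_mul (R := ℚ) (T * (((k + 1 : ℕ) : PowerSeries ℚ) * G1 +
        PowerSeries.X * PowerSeries.derivative ℚ G1)) k 0
  rw [zero_add] at h
  rw [h, PowerSeries.coeff_zero_eq_constantCoeff_apply, map_mul, map_add, map_mul, map_mul,
    PowerSeries.constantCoeff_X, zero_mul, add_zero, map_natCast]

/-- constant coefficients -/
noncomputable def cc (F : ι → PowerSeries ℚ) : ι → ℚ := fun J => PowerSeries.constantCoeff (F J)

theorem cc_ds (S : Sys ι) (hT : S.T.eval 0 = 0) (F : ι → PowerSeries ℚ) :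
    cc (ds S F) = Matrix.vecMul (cc F) (Matrix.of fun i j => (S.A i j).eval 0) := by
  funext J
  simp only [cc, ds, Matrix.vecMul, dotProduct, Matrix.of_apply, map_add, map_mul, map_sum]
  have h1 : ∀ p : ℚ[X], PowerSeries.constantCoeff (p : PowerSeries ℚ) = p.eval 0 := by
    intro p
    rw [← PowerSeries.coeff_zero_eq_constantCoeff_apply, Polynomial.coeff_coe,
      Polynomial.coeff_zero_eq_eval_zero]
  simp only [h1, hT, zero_mul, zero_add]

variable [DecidableEq ι]

theorem cc_iter (S : Sys ι) (hT : S.T.eval 0 = 0) (F : ι → PowerSeries ℚ) (r : ℕ) :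
    cc ((ds S)^[r] F) =
      Matrix.vecMul (cc F) ((Matrix.of fun i j => (S.A i j).eval 0) ^ r) := by
  induction r with
  | zero => simp
  | succ r ih =>
    rw [Function.iterate_succ_apply', cc_ds S hT, ih, Matrix.vecMul_vecMul, ← pow_succ]

/-- (5) -/
theorem five (S : Sys ι) (J0 : ι) (m σ : ℕ) (P : ι → ℚ[X]) (hO : Ode S) (hN : Nil S)
    (hm : m < σ) (hP : Pade S.f J0 m σ P) :
    ∀ n : ℕ, ∀ F : ι → PowerSeries ℚ, La S P F → (PowerSeries.X : PowerSeries ℚ) ^ (n + 1) ∣ df S F
  | 0, F, hF => by
      rw [zero_add, pow_one, PowerSeries.X_dvd_iff]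
      exact four S J0 m σ P hm hP F (by simpa [VV] using hF 0)
  | n + 1, F, hF => by
      have ih := five S J0 m σ P hO hN hm hP n
      obtain ⟨G1, hG1⟩ := ih F hF
      suffices hc : PowerSeries.constantCoeff G1 = 0 by
        obtain ⟨G2, hG2⟩ := PowerSeries.X_dvd_iff.2 hc
        rw [hG1, hG2, ← mul_assoc, ← pow_succ]
        exact dvd_mul_right _ _
      have hn : ((n + 1 : ℕ) : ℚ) ≠ 0 := by positivity
      rcases hN with hT | ⟨hT, hT1, r, hr⟩
      · have h1 := ih (ds S F) (La_ds hF)
        rw [← id2 S hO, hG1] at h1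
        have h2 := (PowerSeries.X_pow_dvd_iff.1 h1) n (by omega)
        rw [coef1] at h2
        have h3 : PowerSeries.constantCoeff (S.T : PowerSeries ℚ) ≠ 0 := by
          rw [← PowerSeries.coeff_zero_eq_constantCoeff_apply, Polynomial.coeff_coe,
            Polynomial.coeff_zero_eq_eval_zero]
          exact hT
        exact ((mul_eq_zero.1 ((mul_eq_zero.1 h2).resolve_left h3)).resolve_left hn)
      · obtain ⟨T1, hT1'⟩ : (X : ℚ[X]) ∣ S.T := by
          rw [X_dvd_iff, coeff_zero_eq_eval_zero]; exact hT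
        have hτ : T1.eval 0 ≠ 0 := by
          intro h
          apply hT1
          rw [hT1']
          simp [h]
        -- the coefficient of the derivative
        have hstep : ∀ G : ι → PowerSeries ℚ, La S P G →
            PowerSeries.coeff (n + 1) (df S (ds S G)) =
              (T1.eval 0 * (n + 1 : ℕ)) * PowerSeries.coeff (n + 1) (df S G) := by
          intro G hG
          obtain ⟨H, hH⟩ := ih G hG
          rw [← id2 S hO, hH, hT1', Polynomial.coe_mul, Polynomial.coe_X, mul_assoc,
            PowerSeries.coeff_succ_X_mul, coef1]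
          have h := PowerSeries.coeff_X_pow_mul (R := ℚ) H (n + 1) 0
          rw [zero_add] at h
          rw [h, PowerSeries.coeff_zero_eq_constantCoeff_apply]
          have h1 : PowerSeries.constantCoeff (T1 : PowerSeries ℚ) = T1.eval 0 := by
            rw [← PowerSeries.coeff_zero_eq_constantCoeff_apply, Polynomial.coeff_coe,
              Polynomial.coeff_zero_eq_eval_zero]
          rw [h1]
          ring
        have hLa : ∀ s, La S P ((ds S)^[s] F) := by
          intro s
          induction s with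
          | zero => exact hF
          | succ s ihs =>
            rw [Function.iterate_succ_apply']
            exact La_ds ihs
        have hit : ∀ s, PowerSeries.coeff (n + 1) (df S ((ds S)^[s] F)) =
            (T1.eval 0 * (n + 1 : ℕ)) ^ s * PowerSeries.coeff (n + 1) (df S F) := by
          intro s
          induction s with
          | zero => simp
          | succ s ihs =>
            rw [Function.iterate_succ_apply', hstep _ (hLa s), ihs, pow_succ]
            ring
        have hcc := cc_iter S hT F r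
        rw [hr, Matrix.vecMul_zero] at hcc
        have hdv : ∀ J, ∃ g, (ds S)^[r] F J = PowerSeries.X * g := by
          intro J
          exact PowerSeries.X_dvd_iff.2 (congrFun hcc J)
        choose g hg using hdv
        have hg' : (ds S)^[r] F = fun J => PowerSeries.X * g J := funext hg
        have hLg : La S P g := by
          apply La_X
          rw [← hg']
          exact hLa r
        have h0 : PowerSeries.coeff (n + 1) (df S ((ds S)^[r] F)) = 0 := by
          rw [hg', df_X, PowerSeries.coeff_succ_X_mul]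
          exact (PowerSeries.X_pow_dvd_iff.1 (ih g hLg)) n (by omega)
        rw [hit r] at h0
        have h1 := (mul_eq_zero.1 h0).resolve_left (pow_ne_zero _ (mul_ne_zero hτ hn))
        rw [hG1] at h1
        have h := PowerSeries.coeff_X_pow_mul (R := ℚ) G1 (n + 1) 0
        rw [zero_add] at h
        rw [h, PowerSeries.coeff_zero_eq_constantCoeff_apply] at h1
        exact h1

theorem five' (S : Sys ι) (J0 : ι) (m σ : ℕ) (P : ι → ℚ[X]) (hO : Ode S) (hN : Nil S)
    (hm : m < σ) (hP : Pade S.f J0 m σ P) (F : ι → PowerSeries ℚ) (hF : La S P F) :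
    df S F = 0 := by
  ext n
  rw [map_zero]
  exact (PowerSeries.X_pow_dvd_iff.1 (five S J0 m σ P hO hN hm hP n F hF)) n (by omega)

end NONZ_

open NONZ_

theorem p_NONZ : T_NONZ := by
  intro ι _ _ S J0 m σ P hO hI hN _ hm hP hW
  obtain ⟨F0, hF0, hF0'⟩ := Matrix.exists_mulVec_eq_zero_iff.2 hW
  obtain ⟨α, hα, hα'⟩ := Matrix.exists_vecMul_eq_zero_iff.2 hW
  have hex : (Finset.univ.filter (fun K => α K ≠ 0)).Nonempty := by
    by_contra hh
    apply hα
    funext J
    by_contra hJ
    exact hh ⟨J, by simp only [Finset.mem_filter, Finset.mem_univ, true_and]; exact hJ⟩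
  obtain ⟨K0, hK0, hmax⟩ := Finset.exists_max_image _ num hex
  rw [Finset.mem_filter] at hK0
  have hK0' := hK0.2
  set k0 := num K0 with hk0
  have hsurj : ∀ j, j ≤ k0 → ∃ K : ι, num K = j := by
    intro j hj
    have h1 : k0 < Fintype.card ι := (Fintype.equivFin ι K0).isLt
    refine ⟨(Fintype.equivFin ι).symm ⟨j, by omega⟩, ?_⟩
    simp [num]
  have hinj : ∀ K K' : ι, num K = num K' → K = K' := by
    intro K K' h
    exact (Fintype.equivFin ι).injective (Fin.ext h)
  have hcoe : ∀ (F : ι → PowerSeries ℚ), ∑ K, (α K : PowerSeries ℚ) * dt F (VV S P (num K)) = 0 := by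
    intro F
    have h1 : ∀ J, ∑ K, (α K : PowerSeries ℚ) * (VV S P (num K) J : PowerSeries ℚ) = 0 := by
      intro J
      have h2 : ∑ K, α K * VV S P (num K) J = 0 := congrFun hα' J
      have h3 := congrArg (Polynomial.coeToPowerSeries.ringHom (R := ℚ)) h2
      rw [map_sum, map_zero] at h3
      simpa using h3
    calc ∑ K, (α K : PowerSeries ℚ) * dt F (VV S P (num K)) =
        ∑ J, F J * ∑ K, (α K : PowerSeries ℚ) * (VV S P (num K) J : PowerSeries ℚ) := by
          unfold dt
          simp only [Finset.mul_sum]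
          rw [Finset.sum_comm]
          refine Finset.sum_congr rfl fun J _ => Finset.sum_congr rfl fun K _ => ?_
          ring
      _ = 0 := by simp [h1]
  have hkey : ∀ F : ι → PowerSeries ℚ, (∀ j, j < k0 → dt F (VV S P j) = 0) →
      dt F (VV S P k0) = 0 := by
    intro F hF
    have h := hcoe F
    rw [Finset.sum_eq_single K0] at h
    · refine (mul_eq_zero.1 h).resolve_left ?_
      intro h1
      apply hK0'
      exact Polynomial.coe_injective ℚ (by rw [h1]; simp)
    · intro K _ hK
      rcases lt_trichotomy (num K) k0 with h1 | h1 | h1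
      · rw [hF _ h1, mul_zero]
      · exact absurd (hinj K K0 h1) hK
      · have : α K = 0 := by
          by_contra hne
          have := hmax K (by simp [hne])
          omega
        rw [this]; simp
    · intro h; exact absurd (Finset.mem_univ _) h
  have hds : ∀ F : ι → PowerSeries ℚ, (∀ j, j < k0 → dt F (VV S P j) = 0) →
      ∀ j, j < k0 → dt (ds S F) (VV S P j) = 0 := by
    intro F hF j hj
    have h1 := id1 S F (VV S P j)
    have h2 : Dv S (VV S P j) = VV S P (j + 1) := by
      unfold VV
      rw [Function.iterate_succ_apply']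
    have h3 : dt F (VV S P (j + 1)) = 0 := by
      rcases Nat.lt_or_ge (j + 1) k0 with h | h
      · exact hF _ h
      · have : j + 1 = k0 := by omega
        rw [this]
        exact hkey F hF
    rw [h2, hF j hj, h3] at h1
    simpa using h1.symm
  have hall : ∀ k, ∀ F : ι → PowerSeries ℚ, (∀ j, j < k0 → dt F (VV S P j) = 0) →
      dt F (VV S P k) = 0 := by
    intro k
    induction k with
    | zero =>
      intro F hF
      rcases Nat.eq_zero_or_pos k0 with h | h
      · have := hkey F hF
        rwa [h] at this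
      · exact hF 0 h
    | succ k ih =>
      intro F hF
      have h1 := id1 S F (VV S P k)
      have h2 : Dv S (VV S P k) = VV S P (k + 1) := by
        unfold VV
        rw [Function.iterate_succ_apply']
      rw [h2, ih F hF, ih (ds S F) (hds F hF)] at h1
      simpa using h1.symm
  have hLa : La S P (fun J => (F0 J : PowerSeries ℚ)) := by
    intro k
    refine hall k _ fun j hj => ?_
    obtain ⟨K, hK⟩ := hsurj j hj.le
    have h1 : ∑ J, VV S P (num K) J * F0 J = 0 := congrFun hF0' K
    have h3 := congrArg (Polynomial.coeToPowerSeries.ringHom (R := ℚ)) h1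
    rw [map_sum, map_zero] at h3
    rw [← hK]
    unfold dt
    rw [← h3]
    refine Finset.sum_congr rfl fun J _ => ?_
    rw [map_mul]
    simp only [Polynomial.coeToPowerSeries.ringHom_apply]
    ring
  have h5 := five' S J0 m σ P hO hN hm hP _ hLa
  exact hF0 (hI F0 h5)

end Pool.Agent.GF
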