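import Pool.Agent.GF.Targets

set_option autoImplicit false

/-!
# GF-ORD0: order of the determinant at zero
-/

namespace Pool.Agent.GF

open Finset
open scoped BigOperators

namespace ORD0_

theorem dvd_deriv {s : ℕ} {g : PowerSeries ℚ} (h : (PowerSeries.X : PowerSeries ℚ) ^ s ∣ g) :
    (PowerSeries.X : PowerSeries ℚ) ^ (s - 1) ∣ PowerSeries.derivative ℚ g := by
  rw [PowerSeries.X_pow_dvd_iff] at h ⊢
  intro m hm
  rw [PowerSeries.coeff_derivative, h (m + 1) (by omega), zero_mul]

theorem det_dvd {n : Type*} [Fintype n] [DecidableEq n] (G : Matrix n n (PowerSeries ℚ)) (j₀ : n)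
    (s : ℕ) (h : ∀ i j, j ≠ j₀ → (PowerSeries.X : PowerSeries ℚ) ^ s ∣ G i j) :
    (PowerSeries.X : PowerSeries ℚ) ^ ((Fintype.card n - 1) * s) ∣ Matrix.det G := by
  classical
  choose! q hq using h
  set G' : Matrix n n (PowerSeries ℚ) := Matrix.of fun i j => if j = j₀ then G i j else q i j
  have h1 : G = Matrix.of fun i j =>
      (fun j => if j = j₀ then 1 else (PowerSeries.X : PowerSeries ℚ) ^ s) j * G' i j := by
    ext1 i j
    simp only [Matrix.of_apply, G']
    split_ifs with hj
    · rw [one_mul]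
    · exact hq i j hj
  rw [h1, Matrix.det_mul_row]
  apply Dvd.dvd.mul_right
  rw [Finset.prod_ite]
  simp only [prod_const_one, one_mul, prod_const]
  rw [← pow_mul, mul_comm s]
  apply pow_dvd_pow
  apply Nat.mul_le_mul_right
  apply le_of_eq
  rw [Finset.filter_not, Finset.filter_eq' univ j₀]
  simp [Finset.card_sdiff]

/-- the operator on vectors of power series -/
noncomputable def DS {ι : Type} [Fintype ι] (S : Sys ι) (v : ι → PowerSeries ℚ) :
    ι → PowerSeries ℚ :=
  fun i => (S.T : PowerSeries ℚ) * PowerSeries.derivative ℚ (v i) -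
    ∑ j, (S.A i j : PowerSeries ℚ) * v j

/-- the linear form measuring the approximation -/
noncomputable def ef {ι : Type} (f : ι → PowerSeries ℚ) (J0 : ι) (v : ι → PowerSeries ℚ) (J : ι) :
    PowerSeries ℚ :=
  v J * f J0 - v J0 * f J

theorem coe_Dv {ι : Type} [Fintype ι] (S : Sys ι) (v : ι → Polynomial ℚ) (i : ι) :
    ((Dv S v i : Polynomial ℚ) : PowerSeries ℚ) =
      DS S (fun j => ((v j : Polynomial ℚ) : PowerSeries ℚ)) i := by
  have h : ∀ (s : Finset ι) (g : ι → Polynomial ℚ),
      ((∑ j ∈ s, g j : Polynomial ℚ) : PowerSeries ℚ) = ∑ j ∈ s, ((g j : Polynomial ℚ) :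
        PowerSeries ℚ) := fun s g => map_sum (Polynomial.coeToPowerSeries.ringHom (R := ℚ)) g s
  rw [Dv, DS, Polynomial.coe_sub, Polynomial.coe_mul, h]
  congr 1
  · congr 1
    rw [← PowerSeries.derivative_coe]
  · apply Finset.sum_congr rfl
    intro j _
    rw [Polynomial.coe_mul]

theorem step {ι : Type} [Fintype ι] (S : Sys ι) (J0 : ι) (hO : Ode S) (u : PowerSeries ℚ)
    (hu : S.f J0 * u = 1) (s : ℕ) (v : ι → PowerSeries ℚ)
    (hv : ∀ J, (PowerSeries.X : PowerSeries ℚ) ^ s ∣ ef S.f J0 v J) (J : ι) :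
    (PowerSeries.X : PowerSeries ℚ) ^ (s - 1) ∣ ef S.f J0 (DS S v) J := by
  set q : PowerSeries ℚ := v J0 * u with hq
  set r : ι → PowerSeries ℚ := fun J => ef S.f J0 v J * u with hr
  have h1 : ∀ J, v J = q * S.f J + r J := by
    intro J
    simp only [hq, hr, ef]
    linear_combination (-(v J)) * hu
  have h2 : ∀ J, (PowerSeries.X : PowerSeries ℚ) ^ s ∣ r J := fun J => (hv J).mul_right _
  have h3 : ∀ J, (PowerSeries.X : PowerSeries ℚ) ^ (s - 1) ∣ DS S r J := by
    intro J
    apply dvd_sub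
    · exact (dvd_deriv (h2 J)).mul_left _
    · apply Finset.dvd_sum
      intro j _
      exact ((pow_dvd_pow _ (Nat.sub_le s 1)).trans (h2 j)).mul_left _
  have h4 : ∀ J, DS S v J = (S.T : PowerSeries ℚ) * PowerSeries.derivative ℚ q * S.f J +
      DS S r J := by
    intro J
    rw [DS, DS]
    have h5 : ∑ j, (S.A J j : PowerSeries ℚ) * v j =
        q * ∑ j, (S.A J j : PowerSeries ℚ) * S.f j + ∑ j, (S.A J j : PowerSeries ℚ) * r j := by
      rw [Finset.mul_sum, ← Finset.sum_add_distrib]
      apply Finset.sum_congr rfl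
      intro j _
      rw [h1 j]
      ring
    rw [h5, ← hO J, h1 J, map_add, Derivation.leibniz, smul_eq_mul, smul_eq_mul]
    ring
  rw [ef, h4 J, h4 J0]
  have h6 : ((S.T : PowerSeries ℚ) * PowerSeries.derivative ℚ q * S.f J + DS S r J) * S.f J0 -
      ((S.T : PowerSeries ℚ) * PowerSeries.derivative ℚ q * S.f J0 + DS S r J0) * S.f J =
      DS S r J * S.f J0 - DS S r J0 * S.f J := by ring
  rw [h6]
  exact dvd_sub ((h3 J).mul_right _) ((h3 J0).mul_right _)

theorem iter {ι : Type} [Fintype ι] (S : Sys ι) (J0 : ι) (hO : Ode S) (u : PowerSeries ℚ)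
    (hu : S.f J0 * u = 1) (σ : ℕ) (P : ι → Polynomial ℚ)
    (hv : ∀ J, (PowerSeries.X : PowerSeries ℚ) ^ σ ∣
      ef S.f J0 (fun j => ((P j : Polynomial ℚ) : PowerSeries ℚ)) J) (k : ℕ) :
    ∀ J, (PowerSeries.X : PowerSeries ℚ) ^ (σ - k) ∣
      ef S.f J0 (fun j => ((VV S P k j : Polynomial ℚ) : PowerSeries ℚ)) J := by
  induction k with
  | zero => simpa [VV] using hv
  | succ k ih =>
    intro J
    have h1 := step S J0 hO u hu (σ - k) _ ih J
    rw [Nat.sub_sub] at h1
    have h2 : (fun j => ((VV S P (k + 1) j : Polynomial ℚ) : PowerSeries ℚ)) =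
        DS S (fun j => ((VV S P k j : Polynomial ℚ) : PowerSeries ℚ)) := by
      funext j
      rw [← coe_Dv, VV, Function.iterate_succ_apply']
      rfl
    rw [h2]
    exact h1

end ORD0_

open ORD0_ in
theorem p_ORD0 : T_ORD0 := by
  intro ι _ _ S J0 m σ P hO h0 hP
  have hg : PowerSeries.constantCoeff (S.f J0) ≠ 0 := by
    rw [h0]
    exact one_ne_zero
  have hu : S.f J0 * (S.f J0)⁻¹ = 1 := PowerSeries.mul_inv_cancel _ hg
  have hunit : IsUnit (S.f J0) := IsUnit.of_mul_eq_one _ hu
  have h1 := iter S J0 hO _ hu σ P hP.ord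
  set V : ι → ι → PowerSeries ℚ := fun K J => ((VV S P (num K) J : Polynomial ℚ) : PowerSeries ℚ)
    with hV
  have h4 : ((WW S P : Polynomial ℚ) : PowerSeries ℚ) = Matrix.det (Matrix.of V) := by
    have := RingHom.map_det (Polynomial.coeToPowerSeries.ringHom (R := ℚ))
      (fun (K J : ι) => VV S P (num K) J)
    exact this
  -- the scaled matrix
  set w : ι → PowerSeries ℚ := fun J => if J = J0 then 1 else S.f J0 with hw
  set B : Matrix ι ι (PowerSeries ℚ) := Matrix.of fun K J => w J * Matrix.of V K J with hB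
  set G : Matrix ι ι (PowerSeries ℚ) := Matrix.of fun K J =>
    if J = J0 then V K J else ef S.f J0 (V K) J with hG
  have h5 : Matrix.det B = (∏ J, w J) * Matrix.det (Matrix.of V) := Matrix.det_mul_row w (Matrix.of V)
  have h6 : IsUnit (∏ J, w J) := by
    apply Finset.prod_induction w IsUnit
    · intro a b ha hb
      exact ha.mul hb
    · exact isUnit_one
    · intro J _
      simp only [hw]
      split_ifs
      · exact isUnit_one
      · exact hunit
  have h7 : Matrix.det G = Matrix.det B := by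
    rw [← Matrix.det_transpose G, ← Matrix.det_transpose B]
    apply Matrix.det_eq_of_forall_row_eq_smul_add_const
      (fun J => if J = J0 then 0 else -(S.f J)) J0
    · simp
    · intro J K
      simp only [hG, hB, Matrix.transpose_apply, Matrix.of_apply, hw, ef]
      by_cases hJ : J = J0
      · simp [hJ]
      · simp only [hJ, if_false, if_true]
        ring
  have h8 : (PowerSeries.X : PowerSeries ℚ) ^
      ((Fintype.card ι - 1) * (σ - (Fintype.card ι - 1))) ∣ Matrix.det G := by
    apply det_dvd G J0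
    intro K J hJ
    simp only [hG, Matrix.of_apply, if_neg hJ]
    refine dvd_trans (pow_dvd_pow _ ?_) (h1 (num K) J)
    have : num K < Fintype.card ι := (Fintype.equivFin ι K).isLt
    omega
  rw [h7, h5, h6.dvd_mul_left, ← h4] at h8
  rw [PowerSeries.X_pow_dvd_iff] at h8
  rw [Polynomial.X_pow_dvd_iff]
  intro n hn
  have := h8 n hn
  rwa [Polynomial.coeff_coe] at this

end Pool.Agent.GF
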