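import Pool.Agent.GF.Targets

set_option autoImplicit false

/-!
# GF, job ORD1: order of the determinant at `z0`
-/

namespace Pool.Agent.GF

open Finset
open scoped BigOperators

namespace ORD1_

/-- `ty z0` as a ring homomorphism -/
noncomputable def tyh (z0 : ℚ) : Polynomial ℚ →+* PowerSeries ℚ :=
  (Polynomial.coeToPowerSeries.ringHom (R := ℚ)).comp
    ((Polynomial.taylorAlgHom z0 : Polynomial ℚ →ₐ[ℚ] Polynomial ℚ) : Polynomial ℚ →+* Polynomial ℚ)

theorem tyh_apply (z0 : ℚ) (p : Polynomial ℚ) : tyh z0 p = ty z0 p := rfl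

theorem ty_deriv (z0 : ℚ) (p : Polynomial ℚ) :
    ty z0 (Polynomial.derivative p) = PowerSeries.derivative ℚ (ty z0 p) := by
  unfold ty
  rw [PowerSeries.derivative_coe, Polynomial.taylor_apply, Polynomial.taylor_apply,
    Polynomial.derivative_comp]
  simp

variable {ι : Type} [Fintype ι] [DecidableEq ι]

theorem gp_Dv (S : Sys ι) (z0 : ℚ) (Γ : ι → ι → PowerSeries ℚ) (hT : Tr S z0 Γ)
    (v : ι → Polynomial ℚ) (J : ι) :
    gp z0 Γ (Dv S v) J = ty z0 S.T * PowerSeries.derivative ℚ (gp z0 Γ v J) := by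
  unfold gp
  have e1 : ∀ l, ty z0 (Dv S v l) = ty z0 S.T * PowerSeries.derivative ℚ (ty z0 (v l)) -
      ∑ j, ty z0 (S.A l j) * ty z0 (v j) := by
    intro l
    unfold Dv
    rw [← ty_deriv, ← tyh_apply, map_sub, map_mul, map_sum]
    simp only [map_mul, tyh_apply]
  have e2 : ty z0 S.T * PowerSeries.derivative ℚ (∑ l, Γ J l * ty z0 (v l)) =
      ∑ l, Γ J l * (ty z0 S.T * PowerSeries.derivative ℚ (ty z0 (v l))) -
        ∑ l, (∑ i, Γ J i * ty z0 (S.A i l)) * ty z0 (v l) := by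
    rw [map_sum, Finset.mul_sum, ← Finset.sum_sub_distrib]
    refine Finset.sum_congr rfl fun l _ => ?_
    rw [Derivation.leibniz, smul_eq_mul, smul_eq_mul]
    have := hT.ode J l
    linear_combination (ty z0 (v l)) * this
  rw [e2, Finset.sum_congr rfl fun l _ => by rw [e1 l]]
  simp only [mul_sub, Finset.sum_sub_distrib, Finset.mul_sum, Finset.sum_mul]
  congr 1
  rw [Finset.sum_comm]
  refine Finset.sum_congr rfl fun l _ => Finset.sum_congr rfl fun i _ => ?_
  ring

/-- the operator `t d` -/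
noncomputable def td (t : PowerSeries ℚ) (f : PowerSeries ℚ) : PowerSeries ℚ :=
  t * PowerSeries.derivative ℚ f

theorem gp_VV (S : Sys ι) (z0 : ℚ) (Γ : ι → ι → PowerSeries ℚ) (hT : Tr S z0 Γ)
    (P : ι → Polynomial ℚ) (k : ℕ) (J : ι) :
    gp z0 Γ (VV S P k) J = (td (ty z0 S.T))^[k] (gp z0 Γ P J) := by
  unfold VV
  induction k with
  | zero => rfl
  | succ k ih =>
    rw [Function.iterate_succ_apply', Function.iterate_succ_apply', gp_Dv S z0 Γ hT, ih]
    rfl

omit [Fintype ι] [DecidableEq ι] in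
theorem td_iter_sum (t : PowerSeries ℚ) (s : Finset ι) (f : ι → PowerSeries ℚ) (c : ι → ℚ)
    (k : ℕ) : (td t)^[k] (∑ i ∈ s, PowerSeries.C (c i) * f i) =
      ∑ i ∈ s, PowerSeries.C (c i) * (td t)^[k] (f i) := by
  induction k with
  | zero => rfl
  | succ k ih =>
    rw [Function.iterate_succ_apply', ih]
    unfold td
    rw [map_sum, Finset.mul_sum]
    refine Finset.sum_congr rfl fun i _ => ?_
    rw [Function.iterate_succ_apply', Derivation.leibniz, PowerSeries.derivative_C, smul_zero,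
      add_zero, smul_eq_mul]
    ring

theorem dvd_td (t : PowerSeries ℚ) (n k : ℕ) (H : PowerSeries ℚ)
    (h : (PowerSeries.X : PowerSeries ℚ) ^ n ∣ H) :
    (PowerSeries.X : PowerSeries ℚ) ^ (n - k) ∣ (td t)^[k] H := by
  induction k with
  | zero => exact h
  | succ k ih =>
    rw [Function.iterate_succ_apply']
    unfold td
    refine Dvd.dvd.mul_left ?_ _
    change (PowerSeries.X : PowerSeries ℚ) ^ (n - k) ∣ (td t)^[k] H at ih
    change (PowerSeries.X : PowerSeries ℚ) ^ (n - (k + 1)) ∣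
      PowerSeries.derivative ℚ ((td t)^[k] H)
    rw [PowerSeries.X_pow_dvd_iff] at ih ⊢
    intro m hm
    rw [PowerSeries.coeff_derivative, ih (m + 1) (by omega), zero_mul]

/-- the matrix `G` -/
noncomputable def GG (S : Sys ι) (z0 : ℚ) (Γ : ι → ι → PowerSeries ℚ) (P : ι → Polynomial ℚ) :
    Matrix ι ι (PowerSeries ℚ) := fun K J => gp z0 Γ (VV S P (num K)) J

/-- the matrix of `WW` -/
noncomputable def MV (S : Sys ι) (P : ι → Polynomial ℚ) :
    Matrix ι ι (Polynomial ℚ) := fun K J => VV S P (num K) J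

theorem GG_eq (S : Sys ι) (z0 : ℚ) (Γ : ι → ι → PowerSeries ℚ) (P : ι → Polynomial ℚ) :
    GG S z0 Γ P = (tyh z0).mapMatrix (MV S P) * (Matrix.of Γ).transpose := by
  ext1 K J
  rw [Matrix.mul_apply]
  show ∑ l, Γ J l * ty z0 (VV S P (num K) l) = _
  refine Finset.sum_congr rfl fun I _ => ?_
  exact mul_comm _ _

theorem isUnit_det (S : Sys ι) (z0 : ℚ) (Γ : ι → ι → PowerSeries ℚ) (hT : Tr S z0 Γ) :
    IsUnit ((Matrix.of Γ).transpose).det := by
  rw [Matrix.det_transpose, PowerSeries.isUnit_iff_constantCoeff, RingHom.map_det]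
  have h : (PowerSeries.constantCoeff (R := ℚ)).mapMatrix (Matrix.of Γ) = 1 := by
    ext I J
    rw [RingHom.mapMatrix_apply, Matrix.map_apply, Matrix.of_apply, hT.init, Matrix.one_apply]
  rw [h, Matrix.det_one]
  exact isUnit_one

theorem det_GG (S : Sys ι) (z0 : ℚ) (Γ : ι → ι → PowerSeries ℚ) (P : ι → Polynomial ℚ) :
    (GG S z0 Γ P).det = ty z0 (WW S P) * ((Matrix.of Γ).transpose).det := by
  rw [GG_eq, Matrix.det_mul, ← RingHom.map_det, tyh_apply]
  rfl

theorem dvd_det_of_mulVec (s : ℕ)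
    (G : Matrix ι ι (PowerSeries ℚ)) (lam : ι → ℚ) (hlam : lam ≠ 0)
    (h : ∀ K, (PowerSeries.X : PowerSeries ℚ) ^ s ∣
      G.mulVec (fun J => PowerSeries.C (lam J)) K) :
    (PowerSeries.X : PowerSeries ℚ) ^ s ∣ G.det := by
  obtain ⟨J, hJ⟩ := Function.ne_iff.mp hlam
  have h1 : G.adjugate.mulVec (G.mulVec (fun J => PowerSeries.C (lam J))) J =
      G.det * PowerSeries.C (lam J) := by
    rw [Matrix.mulVec_mulVec, Matrix.adjugate_mul, Matrix.smul_mulVec, Matrix.one_mulVec,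
      Pi.smul_apply, smul_eq_mul]
  have h2 : (PowerSeries.X : PowerSeries ℚ) ^ s ∣ G.det * PowerSeries.C (lam J) := by
    rw [← h1]
    unfold Matrix.mulVec dotProduct
    exact Finset.dvd_sum fun K _ => (h K).mul_left _
  have h3 : IsUnit (PowerSeries.C (lam J)) :=
    (isUnit_iff_ne_zero.mpr hJ).map (PowerSeries.C (R := ℚ))
  exact (h3.dvd_mul_right).mp h2

end ORD1_

open ORD1_ in
theorem p_ORD1 : T_ORD1 := by
  intro ι _ _ S K0 z0 Γ P c hT hc hk
  set s := K0 + 1 - (Fintype.card ι - 1) with hs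
  set H : PowerSeries ℚ := ∑ J, PowerSeries.C (c J) * gp z0 Γ P J with hH
  have hH1 : (PowerSeries.X : PowerSeries ℚ) ^ (K0 + 1) ∣ H := by
    rw [PowerSeries.X_pow_dvd_iff]
    intro k hk1
    rw [hH, map_sum]
    rw [← hk k (by omega)]
    refine Finset.sum_congr rfl fun J _ => ?_
    rw [PowerSeries.coeff_C_mul]
  have hnum : ∀ K : ι, num K < Fintype.card ι := fun K => (Fintype.equivFin ι K).isLt
  have h1 : (PowerSeries.X : PowerSeries ℚ) ^ s ∣ (GG S z0 Γ P).det := by
    refine dvd_det_of_mulVec s _ c hc fun K => ?_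
    have h2 : (GG S z0 Γ P).mulVec (fun J => PowerSeries.C (c J)) K =
        (td (ty z0 S.T))^[num K] H := by
      show ∑ J, gp z0 Γ (VV S P (num K)) J * PowerSeries.C (c J) = _
      rw [hH, td_iter_sum]
      refine Finset.sum_congr rfl fun J _ => ?_
      rw [gp_VV S z0 Γ hT]
      ring
    rw [h2]
    refine (pow_dvd_pow _ ?_).trans (dvd_td _ (K0 + 1) (num K) H hH1)
    have := hnum K
    omega
  rw [det_GG] at h1
  have h2 := (isUnit_det S z0 Γ hT).dvd_mul_right.mp h1
  rw [Polynomial.X_sub_C_pow_dvd_iff, Polynomial.X_pow_dvd_iff]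
  rw [PowerSeries.X_pow_dvd_iff] at h2
  intro d hd
  have h3 := h2 d hd
  unfold ty at h3
  rw [Polynomial.coeff_coe, Polynomial.taylor_apply] at h3
  exact h3

end Pool.Agent.GF
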