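import Pool.Agent.GF.Targets

set_option autoImplicit false

/-!
# GF, job SH: the expansion at `z0` is a ring homomorphism
-/

namespace Pool.Agent.GF

open Finset
open scoped BigOperators

namespace SH_

theorem su_add {r : ℝ} {F G : PowerSeries ℝ} (hr : 0 < r) (hF : Su r F) (hG : Su r G) :
    Su r (F + G) := by
  unfold Su at *
  refine Summable.of_nonneg_of_le (fun s => by positivity) (fun s => ?_) (hF.add hG)
  rw [map_add, ← add_mul]
  exact mul_le_mul_of_nonneg_right (abs_add_le _ _) (by positivity)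

theorem su_norm {r : ℝ} {F : PowerSeries ℝ} (hr : 0 < r) (hF : Su r F) :
    Summable fun s => ‖PowerSeries.coeff s F * r ^ s‖ := by
  unfold Su at hF
  refine hF.congr fun s => ?_
  rw [norm_mul, Real.norm_eq_abs, Real.norm_eq_abs, abs_of_pos (show 0 < r ^ s by positivity)]

theorem su_mul {r : ℝ} {F G : PowerSeries ℝ} (hr : 0 < r) (hF : Su r F) (hG : Su r G) :
    Su r (F * G) := by
  have h := summable_norm_sum_mul_antidiagonal_of_summable_norm (su_norm hr hF) (su_norm hr hG)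
  unfold Su
  refine h.congr fun n => ?_
  have e : ∑ kl ∈ antidiagonal n, PowerSeries.coeff kl.1 F * r ^ kl.1 *
      (PowerSeries.coeff kl.2 G * r ^ kl.2) = PowerSeries.coeff n (F * G) * r ^ n := by
    rw [PowerSeries.coeff_mul, Finset.sum_mul]
    refine Finset.sum_congr rfl fun kl hkl => ?_
    rw [← mem_antidiagonal.1 hkl, pow_add]
    ring
  rw [e, norm_mul, Real.norm_eq_abs, Real.norm_eq_abs, abs_of_pos (show 0 < r ^ n by positivity)]

theorem su_deriv {r r' : ℝ} {F : PowerSeries ℝ} (hr' : 0 < r') (hr : r' < r) (hF : Su r F) :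
    Su r' (PowerSeries.derivative ℝ F) := by
  have hr0 : 0 < r := hr'.trans hr
  have hq0 : 0 < r' / r := by positivity
  have hq : r' / r < 1 := (div_lt_one hr0).2 hr
  -- the factor is bounded
  have hs : Summable fun n : ℕ => (n : ℝ) ^ 1 * (r' / r) ^ n :=
    summable_pow_mul_geometric_of_norm_lt_one 1 (by rw [Real.norm_of_nonneg hq0.le]; exact hq)
  have hs2 : Summable fun n : ℕ => (r' / r) ^ n := summable_geometric_of_lt_one hq0.le hq
  have hs3 : Summable fun n : ℕ => ((n : ℝ) + 1) * (r' / r) ^ n := by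
    refine (hs.add hs2).congr fun n => ?_
    ring
  obtain ⟨K, hK⟩ : ∃ K : ℝ, ∀ n : ℕ, ((n : ℝ) + 1) * (r' / r) ^ n ≤ K :=
    ⟨∑' n : ℕ, ((n : ℝ) + 1) * (r' / r) ^ n, fun n => hs3.le_tsum n fun m _ => by positivity⟩
  unfold Su at hF ⊢
  have hsh := ((summable_nat_add_iff 1).2 hF).mul_left (K / r)
  refine Summable.of_nonneg_of_le (fun s => by positivity) (fun s => ?_) hsh
  rw [PowerSeries.coeff_derivative, abs_mul, abs_of_pos (show (0 : ℝ) < (s : ℝ) + 1 by positivity)]
  have h1 : ((s : ℝ) + 1) * r' ^ s ≤ K / r * r ^ (s + 1) := by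
    have h2 := mul_le_mul_of_nonneg_right (hK s) (show 0 ≤ r ^ s by positivity)
    have h3 : ((s : ℝ) + 1) * (r' / r) ^ s * r ^ s = ((s : ℝ) + 1) * r' ^ s := by
      rw [div_pow]
      field_simp
    have h4 : K / r * r ^ (s + 1) = K * r ^ s := by
      rw [pow_succ]
      field_simp
    rw [h3] at h2
    rw [h4]
    exact h2
  have h5 := mul_le_mul_of_nonneg_left h1 (abs_nonneg (PowerSeries.coeff (s + 1) F))
  calc |PowerSeries.coeff (s + 1) F| * ((s : ℝ) + 1) * r' ^ s =
        |PowerSeries.coeff (s + 1) F| * (((s : ℝ) + 1) * r' ^ s) := by ring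
    _ ≤ _ := h5
    _ = _ := by ring

/-- the terms of the expansion -/
theorem sm_norm {z0 : ℝ} (hz : 0 < z0) {F : PowerSeries ℝ} (hF : Su (2 * z0) F) (j : ℕ) :
    Summable fun s => ‖PowerSeries.coeff s F * ((s.choose j : ℕ) : ℝ) * z0 ^ (s - j)‖ := by
  unfold Su at hF
  refine Summable.of_nonneg_of_le (fun s => norm_nonneg _) (fun s => ?_) (hF.mul_left (1 / z0 ^ j))
  rw [norm_mul, norm_mul, Real.norm_eq_abs, Real.norm_of_nonneg (Nat.cast_nonneg _),
    Real.norm_of_nonneg (by positivity)]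
  by_cases hs : j ≤ s
  · have h1 : ((s.choose j : ℕ) : ℝ) ≤ 2 ^ s := by exact_mod_cast Nat.choose_le_two_pow s j
    have h2 : z0 ^ s = z0 ^ (s - j) * z0 ^ j := by rw [← pow_add, Nat.sub_add_cancel hs]
    rw [mul_pow, h2]
    have h3 : 1 / z0 ^ j * (|PowerSeries.coeff s F| * (2 ^ s * (z0 ^ (s - j) * z0 ^ j))) =
        |PowerSeries.coeff s F| * 2 ^ s * z0 ^ (s - j) := by
      field_simp
    rw [h3]
    gcongr
  · rw [Nat.choose_eq_zero_of_lt (by omega)]
    simp only [Nat.cast_zero, mul_zero, zero_mul]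
    positivity

theorem sm {z0 : ℝ} (hz : 0 < z0) {F : PowerSeries ℝ} (hF : Su (2 * z0) F) (j : ℕ) :
    Summable fun s => PowerSeries.coeff s F * ((s.choose j : ℕ) : ℝ) * z0 ^ (s - j) :=
  (sm_norm hz hF j).of_norm

theorem sh_add {z0 : ℝ} (hz : 0 < z0) {F G : PowerSeries ℝ} (hF : Su (2 * z0) F)
    (hG : Su (2 * z0) G) : sh z0 (F + G) = sh z0 F + sh z0 G := by
  ext j
  rw [map_add]
  simp only [sh, PowerSeries.coeff_mk]
  rw [← (sm hz hF j).tsum_add (sm hz hG j)]
  refine tsum_congr fun s => ?_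
  rw [map_add]
  ring

theorem sh_mul {z0 : ℝ} (hz : 0 < z0) {F G : PowerSeries ℝ} (hF : Su (2 * z0) F)
    (hG : Su (2 * z0) G) : sh z0 (F * G) = sh z0 F * sh z0 G := by
  ext j
  rw [PowerSeries.coeff_mul]
  simp only [sh, PowerSeries.coeff_mk]
  have h1 : ∀ p ∈ antidiagonal j,
      (∑' s, PowerSeries.coeff s F * ((s.choose p.1 : ℕ) : ℝ) * z0 ^ (s - p.1)) *
        (∑' s, PowerSeries.coeff s G * ((s.choose p.2 : ℕ) : ℝ) * z0 ^ (s - p.2)) =
      ∑' n, ∑ kl ∈ antidiagonal n,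
        PowerSeries.coeff kl.1 F * ((kl.1.choose p.1 : ℕ) : ℝ) * z0 ^ (kl.1 - p.1) *
        (PowerSeries.coeff kl.2 G * ((kl.2.choose p.2 : ℕ) : ℝ) * z0 ^ (kl.2 - p.2)) := fun p _ =>
    tsum_mul_tsum_eq_tsum_sum_antidiagonal_of_summable_norm (sm_norm hz hF p.1) (sm_norm hz hG p.2)
  rw [Finset.sum_congr rfl h1, ← Summable.tsum_finsetSum]
  · refine tsum_congr fun n => ?_
    rw [Finset.sum_comm, PowerSeries.coeff_mul, Finset.sum_mul, Finset.sum_mul]
    refine Finset.sum_congr rfl fun kl hkl => ?_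
    have hn : kl.1 + kl.2 = n := mem_antidiagonal.1 hkl
    rw [← hn, Nat.add_choose_eq, Nat.cast_sum, Finset.mul_sum, Finset.sum_mul]
    refine Finset.sum_congr rfl fun p hp => ?_
    have hj : p.1 + p.2 = j := mem_antidiagonal.1 hp
    rw [Nat.cast_mul]
    by_cases h2 : p.1 ≤ kl.1
    · by_cases h3 : p.2 ≤ kl.2
      · have h4 : kl.1 + kl.2 - j = (kl.1 - p.1) + (kl.2 - p.2) := by omega
        rw [h4, pow_add]
        ring
      · rw [Nat.choose_eq_zero_of_lt (show kl.2 < p.2 by omega)]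
        simp
    · rw [Nat.choose_eq_zero_of_lt (show kl.1 < p.1 by omega)]
      simp
  · intro p _
    exact (summable_norm_sum_mul_antidiagonal_of_summable_norm (sm_norm hz hF p.1)
      (sm_norm hz hG p.2)).of_norm

theorem sh_deriv {z0 : ℝ} (hz : 0 < z0) {F : PowerSeries ℝ} (hF : Su (2 * z0) F) :
    sh z0 (PowerSeries.derivative ℝ F) = PowerSeries.derivative ℝ (sh z0 F) := by
  ext j
  rw [PowerSeries.coeff_derivative]
  simp only [sh, PowerSeries.coeff_mk]
  rw [(sm hz hF (j + 1)).tsum_eq_zero_add, Nat.choose_zero_succ]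
  simp only [Nat.cast_zero, mul_zero, zero_mul, zero_add]
  rw [← tsum_mul_right]
  refine tsum_congr fun s => ?_
  rw [PowerSeries.coeff_derivative, Nat.add_sub_add_right]
  have h : (((s + 1) * s.choose j : ℕ) : ℝ) = (((s + 1).choose (j + 1) * (j + 1) : ℕ) : ℝ) := by
    exact_mod_cast Nat.add_one_mul_choose_eq s j
  push_cast at h
  calc PowerSeries.coeff (s + 1) F * ((s : ℝ) + 1) * ((s.choose j : ℕ) : ℝ) * z0 ^ (s - j) =
        PowerSeries.coeff (s + 1) F * (((s : ℝ) + 1) * ((s.choose j : ℕ) : ℝ)) * z0 ^ (s - j) := by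
        ring
    _ = _ := by rw [h]; ring

theorem su_poly (p : Polynomial ℝ) (r : ℝ) : Su r (p : PowerSeries ℝ) := by
  unfold Su
  refine summable_of_ne_finset_zero (s := p.support) fun s hs => ?_
  rw [Polynomial.coeff_coe, Polynomial.notMem_support_iff.1 hs]
  simp

theorem sh_poly (z0 : ℝ) (p : Polynomial ℝ) :
    sh z0 (p : PowerSeries ℝ) = ((Polynomial.taylor z0 p : Polynomial ℝ) : PowerSeries ℝ) := by
  ext j
  simp only [sh, PowerSeries.coeff_mk, Polynomial.coeff_coe]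
  rw [tsum_eq_sum (s := p.support) (fun s hs => by
    rw [Polynomial.notMem_support_iff.1 hs]; simp), Polynomial.taylor_coeff,
    Polynomial.hasseDeriv_apply, Polynomial.sum_def, Polynomial.eval_finsetSum]
  refine Finset.sum_congr rfl fun s _ => ?_
  rw [Polynomial.eval_monomial]
  ring

end SH_

open SH_ in
theorem p_SH : T_SH := by
  intro z0 hz
  refine ⟨fun r F G hr hF hG => ⟨su_add hr hF hG, su_mul hr hF hG⟩,
    fun r r' F hr' hr hF => su_deriv hr' hr hF, fun F G hF hG => sh_add hz hF hG,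
    fun F G hF hG => sh_mul hz hF hG, fun F hF => sh_deriv hz hF,
    fun p => ⟨fun r => su_poly p r, sh_poly z0 p⟩⟩

end Pool.Agent.GF
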