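import Pool.Agent.GF.Targets

set_option autoImplicit false

/-! G-function theorem: final assembly. -/

namespace Pool.Agent.GF.TG_

open Finset
open scoped BigOperators

theorem val_pos (N C : ℕ) (F : PowerSeries ℚ) (hC : 1 ≤ C) (hN : 8 * C ^ 2 ≤ N)
    (h0 : PowerSeries.constantCoeff F = 1)
    (hb : ∀ s, |PowerSeries.coeff s F| ≤ (C : ℚ) ^ (s + 1)) : val N F ≠ 0 := by
  have hC1 : (1 : ℝ) ≤ C := by exact_mod_cast hC
  have hN1 : 8 * (C : ℝ) ^ 2 ≤ N := by exact_mod_cast hN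
  have hN0 : (0 : ℝ) < N := by nlinarith
  set x : ℝ := C / N with hx
  have hx0 : 0 ≤ x := by positivity
  have hx1 : C * x ≤ 1 / 8 := by
    rw [hx, ← mul_div_assoc, div_le_div_iff₀ hN0 (by norm_num)]
    nlinarith
  have hx2 : x ≤ 1 / 8 := by nlinarith
  have hterm : ∀ s : ℕ, ‖((PowerSeries.coeff s F : ℚ) : ℝ) * (1 / (N : ℝ)) ^ s‖ ≤ C * x ^ s := by
    intro s
    rw [norm_mul, norm_pow, Real.norm_eq_abs, Real.norm_eq_abs,
      abs_of_nonneg (a := 1 / (N : ℝ)) (by positivity)]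
    have h1 : |((PowerSeries.coeff s F : ℚ) : ℝ)| ≤ (C : ℝ) ^ (s + 1) := by
      have := hb s
      have h2 : ((|PowerSeries.coeff s F| : ℚ) : ℝ) ≤ (((C : ℚ) ^ (s + 1) : ℚ) : ℝ) := by
        exact_mod_cast this
      push_cast at h2
      exact h2
    calc |((PowerSeries.coeff s F : ℚ) : ℝ)| * (1 / (N : ℝ)) ^ s
        ≤ (C : ℝ) ^ (s + 1) * (1 / (N : ℝ)) ^ s := by gcongr
      _ = C * x ^ s := by rw [hx, div_pow, div_pow, one_pow]; ring
  have hsum : Summable fun s : ℕ => (C : ℝ) * x ^ s :=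
    (summable_geometric_of_lt_one hx0 (by linarith)).mul_left _
  have hs1 : Summable fun s : ℕ => ((PowerSeries.coeff s F : ℚ) : ℝ) * (1 / (N : ℝ)) ^ s :=
    Summable.of_norm_bounded hsum hterm
  unfold val
  rw [hs1.tsum_eq_zero_add]
  have h0' : PowerSeries.coeff 0 F = 1 := by
    rw [PowerSeries.coeff_zero_eq_constantCoeff_apply]; exact h0
  rw [h0']
  have htail : ‖∑' s : ℕ, ((PowerSeries.coeff (s + 1) F : ℚ) : ℝ) * (1 / (N : ℝ)) ^ (s + 1)‖ ≤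
      C * x * (1 - x)⁻¹ := by
    have hg : HasSum (fun s : ℕ => (C : ℝ) * x * x ^ s) (C * x * (1 - x)⁻¹) :=
      (hasSum_geometric_of_lt_one hx0 (by linarith)).mul_left _
    refine tsum_of_norm_bounded hg ?_
    · intro s
      refine (hterm (s + 1)).trans (le_of_eq ?_)
      rw [pow_succ]; ring
  have hb2 : C * x * (1 - x)⁻¹ ≤ 1 / 7 := by
    have h1 : (1 - x)⁻¹ ≤ 8 / 7 := by
      rw [inv_le_comm₀ (by linarith) (by norm_num)]
      linarith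
    calc C * x * (1 - x)⁻¹ ≤ 1 / 8 * (8 / 7) := by
          apply mul_le_mul hx1 h1 (inv_nonneg.mpr (by linarith)) (by norm_num)
      _ = 1 / 7 := by norm_num
  intro hcon
  have h3 := htail.trans hb2
  rw [Real.norm_eq_abs] at h3
  have h4 := neg_abs_le (∑' s : ℕ, ((PowerSeries.coeff (s + 1) F : ℚ) : ℝ) * (1 / (N : ℝ)) ^ (s + 1))
  have h5 : ((1 : ℚ) : ℝ) * (1 / (N : ℝ)) ^ 0 = 1 := by simp
  rw [h5] at hcon
  linarith

theorem expo (M M' d L n m k σ t : ℕ) (hM' : M = M' + 1) (hd : 1 ≤ d)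
    (hL : L = M + 2 * d * M ^ 2 + 2) (hm : m + 1 = M' * L * n)
    (hσ : σ = M * (M + 2 * d * M ^ 2 + 1) * n) (hk : k ≤ M ^ 2 * n + (d + 1) * M ^ 2)
    (hn : 2 * d * (d + 1) * M ^ 2 + d + t ≤ n) :
    m + 2 * d * k + d + n + t ≤ σ ∧
    2 * k + 2 + 2 * d * k + d + m + 4 * (M * L) ^ 2 * n + σ + M + 4 ≤ EE M d * n := by
  have hM1 : 1 ≤ M := by omega
  have hk2 : 2 * d * k ≤ 2 * d * (M ^ 2 * n + (d + 1) * M ^ 2) := Nat.mul_le_mul_left _ hk
  have e1 : M' * L * n + L * n = M * L * n := by rw [hM']; ring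
  have e2 : M * (M + 2 * d * M ^ 2 + 1) * n + M * n = M * L * n := by rw [hL]; ring
  have e3 : L * n = M * n + 2 * d * M ^ 2 * n + 2 * n := by rw [hL]; ring
  have e4 : 2 * d * (M ^ 2 * n + (d + 1) * M ^ 2) =
      2 * d * M ^ 2 * n + 2 * d * (d + 1) * M ^ 2 := by ring
  have hdM : (d + 1) * M ^ 2 ≤ n := by
    have : (d + 1) * M ^ 2 ≤ 2 * d * (d + 1) * M ^ 2 := by
      have h1 : 1 ≤ 2 * d := by omega
      calc (d + 1) * M ^ 2 = 1 * ((d + 1) * M ^ 2) := by ring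
        _ ≤ 2 * d * ((d + 1) * M ^ 2) := Nat.mul_le_mul_right _ h1
        _ = _ := by ring
    omega
  have hn1 : 1 ≤ n := by omega
  constructor
  · omega
  · have hk3 : k ≤ 2 * M ^ 2 * n := by
      have : n ≤ M ^ 2 * n := Nat.le_mul_of_pos_left _ (by positivity)
      calc k ≤ M ^ 2 * n + (d + 1) * M ^ 2 := hk
        _ ≤ M ^ 2 * n + M ^ 2 * n := by omega
        _ = _ := by ring
    have hL2 : L ≤ 2 * (d + 1) * (M + 1) ^ 2 := by rw [hL]; nlinarith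
    have hm2 : m ≤ M * L * n := by
      have : M' * L * n ≤ M * L * n := by
        apply Nat.mul_le_mul_right; apply Nat.mul_le_mul_right; omega
      omega
    have hσ2 : σ ≤ M * L * n := by rw [hσ]; omega
    have a1 : 2 * k + 2 * d * k ≤ (4 * (d + 1) * M ^ 2) * n := by
      calc 2 * k + 2 * d * k = 2 * (d + 1) * k := by ring
        _ ≤ 2 * (d + 1) * (2 * M ^ 2 * n) := Nat.mul_le_mul_left _ hk3
        _ = _ := by ring
    have a2 : 2 + d + M + 4 ≤ (M + 7) * n := by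
      have : d ≤ n := by omega
      nlinarith
    have a3 : m + σ ≤ (2 * (M * L)) * n := by
      calc m + σ ≤ M * L * n + M * L * n := by omega
        _ = _ := by ring
    have hML : M * L ≤ 2 * (d + 1) * (M + 1) ^ 3 := by
      calc M * L ≤ (M + 1) * (2 * (d + 1) * (M + 1) ^ 2) := Nat.mul_le_mul (by omega) hL2
        _ = _ := by ring
    have a4 : (M * L) ^ 2 ≤ 4 * (d + 1) ^ 2 * (M + 1) ^ 6 := by
      calc (M * L) ^ 2 ≤ (2 * (d + 1) * (M + 1) ^ 3) ^ 2 := Nat.pow_le_pow_left hML 2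
        _ = _ := by ring
    have hbase : 4 * (d + 1) * M ^ 2 + (M + 7) + 2 * (M * L) + 4 * (M * L) ^ 2 ≤ EE M d := by
      unfold EE
      have b1 : M ^ 2 ≤ (M + 1) ^ 6 := by
        calc M ^ 2 ≤ (M + 1) ^ 2 := Nat.pow_le_pow_left (by omega) 2
          _ ≤ (M + 1) ^ 6 := Nat.pow_le_pow_right (by omega) (by norm_num)
      have b2 : (M + 1) ^ 3 ≤ (M + 1) ^ 6 := Nat.pow_le_pow_right (by omega) (by norm_num)
      have b3 : M + 1 ≤ (M + 1) ^ 6 := Nat.le_self_pow (by norm_num) _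
      have b4 : d + 1 ≤ (d + 1) ^ 2 := Nat.le_self_pow (by norm_num) _
      have b5 : 1 ≤ (d + 1) ^ 2 := Nat.one_le_pow _ _ (by omega)
      have c1 : 4 * (d + 1) * M ^ 2 ≤ 4 * ((d + 1) ^ 2 * (M + 1) ^ 6) := by
        calc 4 * (d + 1) * M ^ 2 = 4 * ((d + 1) * M ^ 2) := by ring
          _ ≤ _ := Nat.mul_le_mul_left _ (Nat.mul_le_mul b4 b1)
      have c2 : M + 7 ≤ 7 * ((d + 1) ^ 2 * (M + 1) ^ 6) := by
        calc M + 7 ≤ 7 * (1 * (M + 1)) := by omega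
          _ ≤ _ := Nat.mul_le_mul_left _ (Nat.mul_le_mul b5 b3)
      have c3 : 2 * (M * L) ≤ 4 * ((d + 1) ^ 2 * (M + 1) ^ 6) := by
        calc 2 * (M * L) ≤ 2 * (2 * (d + 1) * (M + 1) ^ 3) := Nat.mul_le_mul_left _ hML
          _ = 4 * ((d + 1) * (M + 1) ^ 3) := by ring
          _ ≤ _ := Nat.mul_le_mul_left _ (Nat.mul_le_mul b4 b2)
      have c4 : 4 * (M * L) ^ 2 ≤ 16 * ((d + 1) ^ 2 * (M + 1) ^ 6) := by
        calc 4 * (M * L) ^ 2 ≤ 4 * (4 * (d + 1) ^ 2 * (M + 1) ^ 6) := Nat.mul_le_mul_left _ a4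
          _ = _ := by ring
      have c5 : (d + 1) ^ 2 * (M + 1) ^ 6 ≤ (M + 1) ^ 8 * (d + 1) ^ 3 := by
        rw [mul_comm]
        exact Nat.mul_le_mul (Nat.pow_le_pow_right (by omega) (by norm_num))
          (Nat.pow_le_pow_right (by omega) (by norm_num))
      have c6 : 1000 * (M + 1) ^ 8 * (d + 1) ^ 3 = 1000 * ((M + 1) ^ 8 * (d + 1) ^ 3) := by ring
      rw [c6]
      omega
    calc 2 * k + 2 + 2 * d * k + d + m + 4 * (M * L) ^ 2 * n + σ + M + 4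
        = (2 * k + 2 * d * k) + (2 + d + M + 4) + (m + σ) + 4 * (M * L) ^ 2 * n := by ring
      _ ≤ (4 * (d + 1) * M ^ 2) * n + (M + 7) * n + (2 * (M * L)) * n + 4 * (M * L) ^ 2 * n := by
          omega
      _ = (4 * (d + 1) * M ^ 2 + (M + 7) + 2 * (M * L) + 4 * (M * L) ^ 2) * n := by ring
      _ ≤ EE M d * n := Nat.mul_le_mul_right _ hbase

/-- the final inequality -/
theorem size (M d L n m k σ t C N E τ : ℕ) (cs Λ : ℝ) (hC : 1 ≤ C) (hcs : cs < 2 ^ t)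
    (hcs0 : 0 ≤ cs)
    (hN : (2 * C) ^ EE M d ≤ N) (hE : E ≤ C ^ (k + 1)) (hτ : τ ≤ (C * N) ^ d)
    (h1 : m + 2 * d * k + d + n + t ≤ σ)
    (h2 : 2 * k + 2 + 2 * d * k + d + m + 4 * (M * L) ^ 2 * n + σ + M + 4 ≤ EE M d * n)
    (hlow : 1 ≤ (N : ℝ) ^ m * E * (τ : ℝ) ^ k * Λ)
    (hup : Λ ≤ 16 * C * (m + 1) * ((2 * C : ℕ) : ℝ) ^ (4 * (M * L) ^ 2 * n) * M * cs *
      ((C : ℝ) * N) ^ d * (2 * ((C : ℝ) * N) ^ d) ^ k * (2 * (C : ℝ) / N) ^ σ) : False := by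
  set G : ℝ := 2 * C with hG
  have hC1 : (1 : ℝ) ≤ C := by exact_mod_cast hC
  have hG2 : 2 ≤ G := by rw [hG]; linarith
  have hG0 : 0 < G := by linarith
  have hG1 : 1 ≤ G := by linarith
  have hCG : (C : ℝ) ≤ G := by rw [hG]; linarith
  have hNG : G ^ EE M d ≤ N := by rw [hG]; exact_mod_cast hN
  have hEE : 1 ≤ EE M d := by
    have : 0 < EE M d := by unfold EE; positivity
    omega
  have hN1 : G ≤ N := by
    refine le_trans ?_ hNG
    calc G = G ^ 1 := by ring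
      _ ≤ _ := pow_le_pow_right₀ hG1 hEE
  have hN2 : (2 : ℝ) ≤ N := by linarith
  have hN0 : (0 : ℝ) < N := by linarith
  have hE' : (E : ℝ) ≤ (C : ℝ) ^ (k + 1) := by exact_mod_cast hE
  have hτ' : (τ : ℝ) ≤ ((C : ℝ) * N) ^ d := by exact_mod_cast hτ
  have hΛ0 : 0 ≤ Λ := by
    by_contra hneg
    push Not at hneg
    have : (N : ℝ) ^ m * E * (τ : ℝ) ^ k * Λ ≤ 0 :=
      mul_nonpos_of_nonneg_of_nonpos (by positivity) hneg.le
    linarith
  have s1 : (1 : ℝ) ≤ (N : ℝ) ^ m * (C : ℝ) ^ (k + 1) * (((C : ℝ) * N) ^ d) ^ k *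
      (16 * C * (m + 1) * ((2 * C : ℕ) : ℝ) ^ (4 * (M * L) ^ 2 * n) * M * cs *
      ((C : ℝ) * N) ^ d * (2 * ((C : ℝ) * N) ^ d) ^ k * (2 * (C : ℝ) / N) ^ σ) := by
    refine hlow.trans ?_
    gcongr
  have s2 : (N : ℝ) ^ m * (C : ℝ) ^ (k + 1) * (((C : ℝ) * N) ^ d) ^ k *
      (16 * C * (m + 1) * ((2 * C : ℕ) : ℝ) ^ (4 * (M * L) ^ 2 * n) * M * cs *
      ((C : ℝ) * N) ^ d * (2 * ((C : ℝ) * N) ^ d) ^ k * (2 * (C : ℝ) / N) ^ σ) =
      cs * ((16 * (M : ℝ)) * (C : ℝ) ^ (k + 2 + 2 * d * k + d) * 2 ^ k * ((m : ℝ) + 1) *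
        G ^ (4 * (M * L) ^ 2 * n) * G ^ σ) * ((N : ℝ) ^ (m + 2 * d * k + d) / N ^ σ) := by
    push_cast
    rw [← hG, div_pow, mul_pow, mul_pow, mul_pow, mul_pow]
    have e1 : (C : ℝ) ^ (k + 2 + 2 * d * k + d) =
        (C : ℝ) ^ (k + 1) * C * ((C : ℝ) ^ d) ^ k * ((C : ℝ) ^ d) ^ k * (C : ℝ) ^ d := by
      rw [← pow_mul, ← pow_succ, ← pow_add, ← pow_add, ← pow_add]
      congr 1; ring
    have e2 : (N : ℝ) ^ (m + 2 * d * k + d) =
        (N : ℝ) ^ m * ((N : ℝ) ^ d) ^ k * ((N : ℝ) ^ d) ^ k * (N : ℝ) ^ d := by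
      rw [← pow_mul, ← pow_add, ← pow_add, ← pow_add]
      congr 1; ring
    rw [e1, e2]
    ring
  rw [s2] at s1
  have b1 : 16 * (M : ℝ) ≤ G ^ (M + 4) := by
    rw [pow_add]
    have x1 : (M : ℝ) ≤ G ^ M := by
      have : (M : ℝ) ≤ 2 ^ M := by exact_mod_cast (Nat.lt_two_pow_self).le
      exact this.trans (pow_le_pow_left₀ (by norm_num) hG2 _)
    have x2 : (16 : ℝ) ≤ G ^ 4 := by
      calc (16 : ℝ) = 2 ^ 4 := by norm_num
        _ ≤ G ^ 4 := pow_le_pow_left₀ (by norm_num) hG2 _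
    calc 16 * (M : ℝ) = M * 16 := by ring
      _ ≤ G ^ M * G ^ 4 := mul_le_mul x1 x2 (by norm_num) (by positivity)
  have b2 : (C : ℝ) ^ (k + 2 + 2 * d * k + d) ≤ G ^ (k + 2 + 2 * d * k + d) :=
    pow_le_pow_left₀ (by positivity) hCG _
  have b3 : (2 : ℝ) ^ k ≤ G ^ k := pow_le_pow_left₀ (by norm_num) hG2 _
  have b4 : (m : ℝ) + 1 ≤ G ^ m := by
    have : (m : ℝ) + 1 ≤ 2 ^ m := by exact_mod_cast Nat.lt_two_pow_self
    exact this.trans (pow_le_pow_left₀ (by norm_num) hG2 _)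
  have b5 : (16 * (M : ℝ)) * (C : ℝ) ^ (k + 2 + 2 * d * k + d) * 2 ^ k * ((m : ℝ) + 1) *
        G ^ (4 * (M * L) ^ 2 * n) * G ^ σ ≤ (N : ℝ) ^ n := by
    calc _ ≤ G ^ (M + 4) * G ^ (k + 2 + 2 * d * k + d) * G ^ k * G ^ m *
          G ^ (4 * (M * L) ^ 2 * n) * G ^ σ := by gcongr
      _ = G ^ (2 * k + 2 + 2 * d * k + d + m + 4 * (M * L) ^ 2 * n + σ + M + 4) := by
          rw [← pow_add, ← pow_add, ← pow_add, ← pow_add, ← pow_add]
          congr 1; ring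
      _ ≤ G ^ (EE M d * n) := pow_le_pow_right₀ hG1 h2
      _ = (G ^ EE M d) ^ n := by rw [pow_mul]
      _ ≤ (N : ℝ) ^ n := pow_le_pow_left₀ (by positivity) hNG n
  have b6 : (N : ℝ) ^ n * ((N : ℝ) ^ (m + 2 * d * k + d) / N ^ σ) ≤ 1 / 2 ^ t := by
    rw [← mul_div_assoc, div_le_div_iff₀ (by positivity) (by positivity), one_mul]
    calc (N : ℝ) ^ n * (N : ℝ) ^ (m + 2 * d * k + d) * 2 ^ t
        ≤ (N : ℝ) ^ n * (N : ℝ) ^ (m + 2 * d * k + d) * (N : ℝ) ^ t := by gcongr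
      _ = (N : ℝ) ^ (m + 2 * d * k + d + n + t) := by
          rw [← pow_add, ← pow_add]; congr 1; ring
      _ ≤ (N : ℝ) ^ σ := pow_le_pow_right₀ (by linarith) h1
  have s3 : (1 : ℝ) ≤ cs * (1 / 2 ^ t) := by
    refine s1.trans ?_
    calc _ ≤ cs * (N : ℝ) ^ n * ((N : ℝ) ^ (m + 2 * d * k + d) / N ^ σ) := by gcongr
      _ = cs * ((N : ℝ) ^ n * ((N : ℝ) ^ (m + 2 * d * k + d) / N ^ σ)) := by ring
      _ ≤ _ := by gcongr
  have h2t : (0 : ℝ) < 2 ^ t := by positivity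
  rw [mul_one_div, le_div_iff₀ h2t] at s3
  linarith

theorem main (h1 : T_ZE) (h2 : T_SIEG) (h3 : T_DEN) (h4 : T_AN) : T_TG := by
  intro ι _ _ S J0 N C d hG hN c hc
  classical
  set M := Fintype.card ι with hM
  have hM1 : 1 ≤ M := Fintype.card_pos_iff.mpr ⟨J0⟩
  have hC := hG.C_pos
  have hd := hG.d_pos
  have h8 : 8 * C ^ 2 ≤ N := by
    refine le_trans ?_ hN
    have e5 : 5 ≤ EE M d := by
      unfold EE
      have : 1 ≤ (M + 1) ^ 8 * (d + 1) ^ 3 := Nat.one_le_iff_ne_zero.mpr (by positivity)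
      calc 5 ≤ 1000 * 1 := by norm_num
        _ ≤ 1000 * ((M + 1) ^ 8 * (d + 1) ^ 3) := Nat.mul_le_mul_left _ this
        _ = _ := by ring
    calc 8 * C ^ 2 ≤ (2 * C) ^ 5 := by
          have : C ^ 2 ≤ C ^ 5 := Nat.pow_le_pow_right hC (by norm_num)
          calc 8 * C ^ 2 ≤ 32 * C ^ 5 := by omega
            _ = (2 * C) ^ 5 := by ring
      _ ≤ _ := Nat.pow_le_pow_right (by omega) e5
  rcases Nat.lt_or_ge M 2 with hM2 | hM2
  · -- one function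
    have hsub : Subsingleton ι := Fintype.card_le_one_iff_subsingleton.mp (by omega)
    have hv := val_pos N C (S.f J0) hC h8 hG.one (hG.bd J0)
    rw [Fintype.sum_subsingleton _ J0] at hc
    have hcJ : c J0 = 0 := by
      rcases mul_eq_zero.mp hc with h | h
      · exact_mod_cast h
      · exact absurd h hv
    funext J
    rw [Subsingleton.elim J J0, hcJ]; rfl
  by_contra hne
  obtain ⟨M', hM'⟩ : ∃ M', M = M' + 1 := ⟨M - 1, by omega⟩
  set L := M + 2 * d * M ^ 2 + 2 with hL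
  obtain ⟨t, ht⟩ : ∃ t : ℕ, (∑ J, |(c J : ℝ)|) < 2 ^ t := pow_unbounded_of_one_lt _ one_lt_two
  set n := 2 * d * (d + 1) * M ^ 2 + d + t with hn
  have hn1 : 1 ≤ n := by omega
  obtain ⟨e, he, hden⟩ := hG.den
  obtain ⟨Γ, e2, τ, hTr, hΓb, hτ0, hτ, he2, hΓd⟩ := hG.tr
  obtain ⟨P, hP, hPi⟩ := h2 ι S.f J0 C L n e hM2 hC (by rw [← hM, hL]; omega) hn1 hG.one
    hG.bd he hden
  rw [← hM] at hP hPi
  set m := (M - 1) * L * n - 1 with hm
  set σ := M * (L - 1) * n with hσ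
  have hm1 : m + 1 = M' * L * n := by
    have h5 : M - 1 = M' := by omega
    rw [hm, h5]
    have : 1 ≤ M' * L * n := by
      have h6 : 1 ≤ M' := by omega
      have h7 : 1 ≤ L := by omega
      exact Nat.one_le_iff_ne_zero.mpr (by positivity)
    omega
  have hσ1 : σ = M * (M + 2 * d * M ^ 2 + 1) * n := by
    rw [hσ]; congr 2
  have hmσ : m < σ := by
    have e1 : M' * L * n + L * n = M * L * n := by rw [hM']; ring
    have e2 : M * (M + 2 * d * M ^ 2 + 1) * n + M * n = M * L * n := by rw [hL]; ring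
    have e3 : L * n = M * n + 2 * d * M ^ 2 * n + 2 * n := by rw [hL]; ring
    rw [hσ1]; omega
  have hc0 : (fun J => (c J : ℚ)) ≠ 0 := by
    intro h
    apply hne
    funext J
    have h9 : (c J : ℚ) = 0 := congrFun h J
    have h10 : c J = 0 := by exact_mod_cast h9
    exact h10
  have hN0 : 0 < N := by
    have : 0 < 8 * C ^ 2 := by positivity
    omega
  have hz0 : (1 / (N : ℚ)) ≠ 0 := by positivity
  -- the zero estimate
  have hex : ∃ k, ∑ J, (c J : ℚ) * PowerSeries.coeff k (gp (1 / (N : ℚ)) Γ P J) ≠ 0 ∧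
      k ≤ M ^ 2 * n + (d + 1) * M ^ 2 := by
    by_contra hcon
    push Not at hcon
    have hall : ∀ k, k ≤ M ^ 2 * n + (d + 1) * M ^ 2 →
        ∑ J, (c J : ℚ) * PowerSeries.coeff k (gp (1 / (N : ℚ)) Γ P J) = 0 := by
      intro k hk
      by_contra h
      exact absurd hk (not_le.mpr (hcon k h))
    have hz := h1 ι S J0 m σ d (M ^ 2 * n + (d + 1) * M ^ 2) (1 / (N : ℚ)) Γ P
      (fun J => (c J : ℚ)) hG.ode hG.ind hG.nil hG.one hG.T_deg hG.A_deg hmσ hP hz0 hTr hc0 hall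
    rw [← hM] at hz
    have h5 : M - 1 = M' := by omega
    rw [h5, hσ1] at hz
    have e1 : M' * (M * (M + 2 * d * M ^ 2 + 1) * n) + M' * (M * n) = M * (M' * L * n) := by
      rw [hL]; ring
    have e2 : M * m + M = M * (M' * L * n) := by rw [← hm1]; ring
    have e3 : M' * (M * n) + M * n = M ^ 2 * n := by rw [hM']; ring
    omega
  classical
  have hex' : ∃ k, ∑ J, (c J : ℚ) * PowerSeries.coeff k (gp (1 / (N : ℚ)) Γ P J) ≠ 0 :=
    hex.imp fun _ h => h.1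
  set k := Nat.find hex' with hk
  have hk1 := Nat.find_spec hex'
  rw [← hk] at hk1
  have hkmin : ∀ i, i < k →
      ∑ J, (c J : ℚ) * PowerSeries.coeff i (gp (1 / (N : ℚ)) Γ P J) = 0 := by
    intro i hi
    by_contra h
    exact Nat.find_min hex' hi h
  have hkle : k ≤ M ^ 2 * n + (d + 1) * M ^ 2 := by
    obtain ⟨k', hk', hk''⟩ := hex
    exact (Nat.find_min' hex' hk').trans hk''
  set Lam : ℚ := ∑ J, (c J : ℚ) * PowerSeries.coeff k (gp (1 / (N : ℚ)) Γ P J) with hLam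
  -- upper bound
  have hPi2 : ∀ J s, |((P J).coeff s : ℝ)| ≤ ((2 * C : ℕ) : ℝ) ^ (4 * (M * L) ^ 2 * n) := by
    intro J s
    obtain ⟨x, hx, hx2⟩ := hPi J s
    rw [hx]
    have : ((|x| : ℤ) : ℝ) ≤ ((((2 * C : ℕ) : ℤ) ^ (4 * (M * L) ^ 2 * n) : ℤ) : ℝ) := by
      exact_mod_cast hx2
    push_cast at this ⊢
    exact this
  have hup := h4 ι S J0 C N d m σ k (((2 * C : ℕ) : ℝ) ^ (4 * (M * L) ^ 2 * n)) Γ P c hG.ode
    hG.one hG.T_ne hC hd h8 hG.bd hTr hΓb hP hmσ hPi2 hc hkmin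
  rw [← hM] at hup
  -- lower bound
  have hint := h3 ι m k N τ (e2 k) Γ P hN0 hP.deg
    (fun J s => (hPi J s).imp fun _ h => h.1) (fun i j s hs => hΓd i j k s hs)
  choose y hy using hint
  have hLy : ((N : ℚ) ^ m * (e2 k : ℚ) * (τ : ℚ) ^ k) * Lam = ((∑ J, c J * y J : ℤ) : ℚ) := by
    push_cast
    rw [hLam, Finset.mul_sum]
    refine Finset.sum_congr rfl (fun J _ => ?_)
    rw [← hy J]; ring
  have hfac : (0 : ℚ) < (N : ℚ) ^ m * (e2 k : ℚ) * (τ : ℚ) ^ k := by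
    have h5 : (0 : ℚ) < N := by exact_mod_cast hN0
    have h6 : (0 : ℚ) < (e2 k : ℚ) := by exact_mod_cast (he2 k).1
    have h7 : (0 : ℚ) < (τ : ℚ) := by exact_mod_cast hτ0
    positivity
  have hlow : (1 : ℝ) ≤ (N : ℝ) ^ m * (e2 k : ℝ) * (τ : ℝ) ^ k * |(Lam : ℝ)| := by
    have hyn : (∑ J, c J * y J : ℤ) ≠ 0 := by
      intro h
      rw [h, Int.cast_zero] at hLy
      exact hk1 ((mul_eq_zero.mp hLy).resolve_left hfac.ne')
    have h5 : (1 : ℤ) ≤ |∑ J, c J * y J| := Int.one_le_abs hyn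
    have h6 : (1 : ℝ) ≤ |((∑ J, c J * y J : ℤ) : ℝ)| := by exact_mod_cast h5
    have h7 : ((∑ J, c J * y J : ℤ) : ℝ) = (N : ℝ) ^ m * (e2 k : ℝ) * (τ : ℝ) ^ k * (Lam : ℝ) := by
      have := congrArg (fun y : ℚ => (y : ℝ)) hLy
      push_cast at this ⊢
      linarith
    rw [h7, abs_mul, abs_of_nonneg (a := (N : ℝ) ^ m * (e2 k : ℝ) * (τ : ℝ) ^ k)
      (by positivity)] at h6
    exact h6
  have hup' : |(Lam : ℝ)| ≤ 16 * C * (m + 1) * ((2 * C : ℕ) : ℝ) ^ (4 * (M * L) ^ 2 * n) * M *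
      (∑ J, |(c J : ℝ)|) * ((C : ℝ) * N) ^ d * (2 * ((C : ℝ) * N) ^ d) ^ k *
      (2 * (C : ℝ) / N) ^ σ := by
    have h5 : (Lam : ℝ) =
        ∑ J, (c J : ℝ) * ((PowerSeries.coeff k (gp (1 / (N : ℚ)) Γ P J) : ℚ) : ℝ) := by
      rw [hLam]; push_cast; rfl
    rw [h5]
    exact hup
  obtain ⟨x1, x2⟩ := expo M M' d L n m k σ t hM' hd hL hm1 hσ1 hkle (by rw [hn])
  exact size M d L n m k σ t C N (e2 k) τ (∑ J, |(c J : ℝ)|) |(Lam : ℝ)| hC ht
    (Finset.sum_nonneg fun _ _ => abs_nonneg _) hN (he2 k).2 hτ x1 x2 hlow hup'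

end Pool.Agent.GF.TG_

namespace Pool.Agent.GF

theorem p_TG (h1 : T_ZE) (h2 : T_SIEG) (h3 : T_DEN) (h4 : T_AN) : T_TG :=
  TG_.main h1 h2 h3 h4

end Pool.Agent.GF
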