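import Pool.Agent.GF.ZE
import Pool.Agent.GF.TG
import Pool.Agent.GF.NONZ
import Pool.Agent.GF.ORD0
import Pool.Agent.GF.ORD1
import Pool.Agent.GF.DEG
import Pool.Agent.GF.SIEG
import Pool.Agent.GF.DEN
import Pool.Agent.GF.SH
import Pool.Agent.GF.AN

set_option autoImplicit false

namespace Pool.Agent.GF

/-- the common theorem TG, unconditional -/
theorem TG : T_TG :=
  p_TG (p_ZE p_NONZ p_ORD0 p_ORD1 p_DEG) p_SIEG p_DEN (p_AN p_SH)

end Pool.Agent.GF
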