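import Pool.Agent.GF.Targets

set_option autoImplicit false

/-! G-function theorem: the zero estimate. -/

namespace Pool.Agent.GF

open Finset

theorem p_ZE (h1 : T_NONZ) (h2 : T_ORD0) (h3 : T_ORD1) (h4 : T_DEG) : T_ZE := by
  intro ι _ _ S J0 m σ d K0 z0 Γ P c hode hind hnil hone hT hA hlt hP hz0 hTr hc hk
  classical
  set M := Fintype.card ι with hM
  have hM1 : 1 ≤ M := Fintype.card_pos_iff.mpr ⟨J0⟩
  have hW := h1 ι S J0 m σ P hode hind hnil hone hlt hP
  have d0 := h2 ι S J0 m σ P hode hone hP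
  have d1 := h3 ι S K0 z0 Γ P c hTr hc hk
  have dg := h4 ι S m d P hT hA hP.deg
  rw [← hM] at d0 d1 dg
  have hco : IsCoprime (Polynomial.X ^ ((M - 1) * (σ - (M - 1))) : Polynomial ℚ)
      ((Polynomial.X - Polynomial.C z0) ^ (K0 + 1 - (M - 1))) := by
    apply IsCoprime.pow
    have := Polynomial.isCoprime_X_sub_C_of_isUnit_sub (R := ℚ) (a := 0) (b := z0)
      (by simpa using hz0)
    simpa using this
  have hdvd := hco.mul_dvd d0 d1
  have hdeg := Polynomial.natDegree_le_of_dvd hdvd hW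
  rw [Polynomial.natDegree_mul (pow_ne_zero _ Polynomial.X_ne_zero)
    (pow_ne_zero _ (Polynomial.X_sub_C_ne_zero z0)), Polynomial.natDegree_pow,
    Polynomial.natDegree_pow, Polynomial.natDegree_X, Polynomial.natDegree_X_sub_C,
    mul_one, mul_one] at hdeg
  have h5 := hdeg.trans dg
  obtain ⟨M', hM'⟩ : ∃ M', M = M' + 1 := ⟨M - 1, by omega⟩
  rw [hM'] at h5 ⊢
  simp only [Nat.add_sub_cancel] at h5 ⊢
  have h6 : M' * σ ≤ M' * (σ - M') + M' * M' := by
    rw [← Nat.mul_add]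
    exact Nat.mul_le_mul_left _ (by omega)
  have h7 : K0 + 1 ≤ (K0 + 1 - M') + M' := by omega
  nlinarith

end Pool.Agent.GF
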